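import Mathlib

/-!
# `k`-independent sets and `(2,k)`-divisible sets
-/

namespace MPa0e17f

open Finset Module

/-- A finite set `S` of points of a real vector space is `k`-independent if every subset of `S`
with at most `k + 1` points is affinely independent. -/
def KIndep {E : Type*} [AddCommGroup E] [Module ℝ E] (k : ℕ) (S : Finset E) : Prop :=
  ∀ T : Finset E, T ⊆ S → T.card ≤ k + 1 → AffineIndependent ℝ (fun x : T => (x : E))

/-- A finite set `S` is `(2,k)`-divisible if it splits into two disjoint subsets `S₁`, `S₂` such
that `conv S₁ ∩ conv S₂` is nonempty and has dimension at least `k` (the dimension of a nonempty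
convex set is the dimension of the direction of its affine hull). -/
def Divisible {E : Type*} [AddCommGroup E] [Module ℝ E] (k : ℕ) (S : Finset E) : Prop :=
  ∃ S₁ S₂ : Finset E, Disjoint S₁ S₂ ∧ (S₁ : Set E) ∪ S₂ = S ∧
    (convexHull ℝ (S₁ : Set E) ∩ convexHull ℝ (S₂ : Set E)).Nonempty ∧
    k ≤ finrank ℝ (vectorSpan ℝ (convexHull ℝ (S₁ : Set E) ∩ convexHull ℝ (S₂ : Set E)))

/-- `N k d` is the least integer `n` such that every `k`-independent finite set of at least `n`
points of `ℝ^d` is `(2,k)`-divisible. -/
noncomputable def N (k d : ℕ) : ℕ :=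
  sInf {n : ℕ | ∀ S : Finset (EuclideanSpace ℝ (Fin d)), KIndep k S → n ≤ S.card →
    Divisible k S}

end MPa0e17f
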