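import Mathlib
import Pool.Agent.Lib.MP_a0e17f.Defs

section
/-!
# Linear core of the `(2,k)`-divisibility bound

`U` is a linear subspace of `ℝ^ι` (the space of affine dependences of a finite point set).
-/
open Finset Module

set_option linter.unusedSectionVars false
set_option linter.unusedFintypeInType false
set_option linter.unusedDecidableInType false

namespace MPa0e17f

variable {ι : Type*} [Fintype ι] [DecidableEq ι]

open Classical in
/-- indices with positive coordinate -/
noncomputable def Pos (μ : ι → ℝ) : Finset ι := univ.filter (fun i => 0 < μ i)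

open Classical in
/-- indices with negative coordinate -/
noncomputable def Neg (μ : ι → ℝ) : Finset ι := univ.filter (fun i => μ i < 0)

open Classical in
/-- indices on which the subspace `U` does not vanish identically -/
noncomputable def act (U : Submodule ℝ (ι → ℝ)) : Finset ι :=
  univ.filter (fun i => ∃ μ ∈ U, μ i ≠ 0)

/-- elements of `U` vanishing on `S` -/
def K (U : Submodule ℝ (ι → ℝ)) (S : Finset ι) : Submodule ℝ (ι → ℝ) where
  carrier := {μ | μ ∈ U ∧ ∀ i ∈ S, μ i = 0}
  add_mem' := by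
    rintro a b ⟨ha, ha'⟩ ⟨hb, hb'⟩
    exact ⟨U.add_mem ha hb, fun i hi => by simp [ha' i hi, hb' i hi]⟩
  zero_mem' := ⟨U.zero_mem, fun i _ => rfl⟩
  smul_mem' := by
    rintro c a ⟨ha, ha'⟩
    exact ⟨U.smul_mem c ha, fun i hi => by simp [ha' i hi]⟩

/-- dimension of `K U S` -/
noncomputable def kap (U : Submodule ℝ (ι → ℝ)) (S : Finset ι) : ℕ := finrank ℝ (K U S)

lemma mem_Pos {μ : ι → ℝ} {i : ι} : i ∈ Pos μ ↔ 0 < μ i := by simp [Pos]
lemma mem_Neg {μ : ι → ℝ} {i : ι} : i ∈ Neg μ ↔ μ i < 0 := by simp [Neg]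
lemma mem_act {U : Submodule ℝ (ι → ℝ)} {i : ι} : i ∈ act U ↔ ∃ μ ∈ U, μ i ≠ 0 := by simp [act]
lemma mem_K {U : Submodule ℝ (ι → ℝ)} {S : Finset ι} {μ : ι → ℝ} :
    μ ∈ K U S ↔ μ ∈ U ∧ ∀ i ∈ S, μ i = 0 := Iff.rfl

lemma K_le (U : Submodule ℝ (ι → ℝ)) (S : Finset ι) : K U S ≤ U := fun _ h => h.1

lemma K_anti (U : Submodule ℝ (ι → ℝ)) {S T : Finset ι} (h : S ⊆ T) : K U T ≤ K U S :=
  fun _ hμ => ⟨hμ.1, fun i hi => hμ.2 i (h hi)⟩

lemma K_empty (U : Submodule ℝ (ι → ℝ)) : K U ∅ = U := by
  ext μ; simp [mem_K]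

lemma K_K (U : Submodule ℝ (ι → ℝ)) (S T : Finset ι) : K (K U S) T = K U (S ∪ T) := by
  ext μ
  simp only [mem_K, Finset.mem_union]
  constructor
  · rintro ⟨⟨h1, h2⟩, h3⟩
    exact ⟨h1, fun i hi => hi.elim (h2 i) (h3 i)⟩
  · rintro ⟨h1, h2⟩
    exact ⟨⟨h1, fun i hi => h2 i (Or.inl hi)⟩, fun i hi => h2 i (Or.inr hi)⟩

lemma kap_le_of_le {U V : Submodule ℝ (ι → ℝ)} {S T : Finset ι} (h : K U S ≤ K V T) :
    kap U S ≤ kap V T := Submodule.finrank_mono h

lemma kap_anti (U : Submodule ℝ (ι → ℝ)) {S T : Finset ι} (h : S ⊆ T) : kap U T ≤ kap U S :=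
  kap_le_of_le (K_anti U h)

lemma not_act {U : Submodule ℝ (ι → ℝ)} {i : ι} (h : i ∉ act U) {μ : ι → ℝ} (hμ : μ ∈ U) :
    μ i = 0 := by
  by_contra hne
  exact h (mem_act.2 ⟨μ, hμ, hne⟩)

lemma act_mono {U V : Submodule ℝ (ι → ℝ)} (h : U ≤ V) : act U ⊆ act V := by
  intro i hi
  obtain ⟨μ, hμ, h0⟩ := mem_act.1 hi
  exact mem_act.2 ⟨μ, h hμ, h0⟩

/-- dimension drops by at most one when one coordinate is required to vanish -/
lemma finrank_le_K_singleton (W : Submodule ℝ (ι → ℝ)) (i : ι) :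
    finrank ℝ W ≤ kap W {i} + 1 := by
  let f : W →ₗ[ℝ] ℝ := (LinearMap.proj i).comp W.subtype
  have h1 : finrank ℝ (LinearMap.range f) + finrank ℝ (LinearMap.ker f) = finrank ℝ W :=
    LinearMap.finrank_range_add_finrank_ker f
  have h2 : finrank ℝ (LinearMap.range f) ≤ 1 := by
    have := Submodule.finrank_le (LinearMap.range f)
    simpa using this
  have h3 : finrank ℝ (LinearMap.ker f) = kap W {i} := by
    have hmap : (LinearMap.ker f).map W.subtype = K W {i} := by
      ext μ
      constructor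
      · rintro ⟨w, hw, rfl⟩
        refine ⟨w.2, fun j hj => ?_⟩
        rw [Finset.mem_singleton] at hj
        subst hj
        exact hw
      · rintro ⟨h1, h2⟩
        exact ⟨⟨μ, h1⟩, h2 i (Finset.mem_singleton_self i), rfl⟩
    rw [kap, ← hmap, Submodule.finrank_map_subtype_eq]
  omega

lemma kap_le_insert (U : Submodule ℝ (ι → ℝ)) (S : Finset ι) (i : ι) :
    kap U S ≤ kap U (insert i S) + 1 := by
  have h := finrank_le_K_singleton (K U S) i
  have h2 : kap (K U S) {i} = kap U (insert i S) := by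
    rw [kap, K_K, Finset.union_comm, ← Finset.insert_eq]; rfl
  rw [h2] at h
  exact h

lemma kap_insert_of_ne (U : Submodule ℝ (ι → ℝ)) (S : Finset ι) (i : ι)
    (h : ∃ μ ∈ K U S, μ i ≠ 0) : kap U (insert i S) + 1 = kap U S := by
  have h1 := kap_le_insert U S i
  have h2 : kap U (insert i S) < kap U S := by
    refine Submodule.finrank_lt_finrank_of_lt ?_
    refine lt_of_le_of_ne (K_anti U (Finset.subset_insert i S)) ?_
    intro heq
    obtain ⟨μ, hμ, h0⟩ := h
    rw [← heq] at hμ
    exact h0 (hμ.2 i (Finset.mem_insert_self i S))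
  omega

lemma kap_empty (U : Submodule ℝ (ι → ℝ)) : kap U ∅ = finrank ℝ U := by
  rw [kap, K_empty]

lemma kap_singleton_of_ne (W : Submodule ℝ (ι → ℝ)) (i : ι) (h : ∃ μ ∈ W, μ i ≠ 0) :
    kap W {i} + 1 = finrank ℝ W := by
  obtain ⟨μ, hμ, hi⟩ := h
  have h1 := kap_insert_of_ne W ∅ i ⟨μ, by rw [K_empty]; exact hμ, hi⟩
  rw [kap_empty, insert_empty_eq] at h1
  exact h1

lemma kap_union_add (U : Submodule ℝ (ι → ℝ)) (S T : Finset ι) :
    kap U S + kap U T ≤ kap U (S ∪ T) + finrank ℝ U := by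
  have h := Submodule.finrank_sup_add_finrank_inf_eq (K U S) (K U T)
  have h1 : K U S ⊓ K U T = K U (S ∪ T) := by
    ext μ
    simp only [Submodule.mem_inf, mem_K, Finset.mem_union]
    constructor
    · rintro ⟨⟨h1, h2⟩, _, h3⟩
      exact ⟨h1, fun i hi => hi.elim (h2 i) (h3 i)⟩
    · rintro ⟨h1, h2⟩
      exact ⟨⟨h1, fun i hi => h2 i (Or.inl hi)⟩, h1, fun i hi => h2 i (Or.inr hi)⟩
  have h2 : finrank ℝ ↥(K U S ⊔ K U T) ≤ finrank ℝ U :=
    Submodule.finrank_mono (sup_le (K_le U S) (K_le U T))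
  rw [h1] at h
  simp only [kap]
  omega

lemma finrank_le_kap_add_card (U : Submodule ℝ (ι → ℝ)) (S : Finset ι) :
    finrank ℝ U ≤ kap U S + S.card := by
  induction S using Finset.induction_on with
  | empty => rw [kap, K_empty]; simp
  | insert i S hi ih =>
    have := kap_le_insert U S i
    rw [Finset.card_insert_of_notMem hi]
    omega

/-- Lemma S: supports of nonzero subspaces are large. -/
lemma card_act_ge {k : ℕ} {U : Submodule ℝ (ι → ℝ)}
    (H1 : ∀ μ ∈ U, μ ≠ 0 → k + 2 ≤ (univ.filter (fun i => μ i ≠ 0)).card)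
    (W : Submodule ℝ (ι → ℝ)) (hW : W ≤ U) (h0 : 1 ≤ finrank ℝ W) :
    finrank ℝ W + k + 1 ≤ (act W).card := by
  obtain ⟨n, hn⟩ : ∃ n, finrank ℝ W = n + 1 := ⟨finrank ℝ W - 1, by omega⟩
  induction n generalizing W with
  | zero =>
    have hne : W ≠ ⊥ := by
      rintro rfl
      simp at hn
    obtain ⟨μ, hμ, hμ0⟩ := Submodule.exists_mem_ne_zero_of_ne_bot hne
    have h1 := H1 μ (hW hμ) hμ0
    have h2 : (univ.filter (fun i => μ i ≠ 0)) ⊆ act W := by
      intro i hi
      exact mem_act.2 ⟨μ, hμ, (Finset.mem_filter.1 hi).2⟩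
    have h3 := Finset.card_le_card h2
    omega
  | succ n ih =>
    have hne : W ≠ ⊥ := by
      rintro rfl
      simp at hn
    obtain ⟨μ, hμ, hμ0⟩ := Submodule.exists_mem_ne_zero_of_ne_bot hne
    obtain ⟨i, hi⟩ : ∃ i, μ i ≠ 0 := by
      by_contra hcon
      push Not at hcon
      exact hμ0 (funext hcon)
    have hk : kap W {i} + 1 = finrank ℝ W := kap_singleton_of_ne W i ⟨μ, hμ, hi⟩
    have h1 := ih (K W {i}) ((K_le W _).trans hW) (by rw [← kap]; omega) (by rw [← kap]; omega)
    have h2 : act (K W {i}) ⊆ (act W).erase i := by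
      intro j hj
      rw [Finset.mem_erase]
      refine ⟨?_, act_mono (K_le W _) hj⟩
      rintro rfl
      obtain ⟨ν, hν, hν0⟩ := mem_act.1 hj
      exact hν0 (hν.2 j (Finset.mem_singleton_self j))
    have h3 : i ∈ act W := mem_act.2 ⟨μ, hμ, hi⟩
    have h4 := Finset.card_le_card h2
    rw [Finset.card_erase_of_mem h3] at h4
    have h5 : 1 ≤ (act W).card := Finset.card_pos.2 ⟨i, h3⟩
    rw [← kap] at h1
    omega

/-! ### Genericity -/

/-- finitely many functionals, none vanishing on `W`, do not vanish simultaneously at some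
element of `W` -/
lemma exists_generic {E : Type*} [AddCommGroup E] [Module ℝ E] (W : Submodule ℝ E)
    {J : Type*} (s : Finset J) (f : J → (E →ₗ[ℝ] ℝ))
    (h : ∀ j ∈ s, ∃ w ∈ W, f j w ≠ 0) : ∃ z ∈ W, ∀ j ∈ s, f j z ≠ 0 := by
  classical
  induction s using Finset.induction_on with
  | empty => exact ⟨0, W.zero_mem, by simp⟩
  | insert j s hj ih =>
    obtain ⟨z, hz, hz'⟩ := ih (fun i hi => h i (Finset.mem_insert_of_mem hi))
    obtain ⟨w, hw, hw'⟩ := h j (Finset.mem_insert_self j s)
    by_cases hjz : f j z = 0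
    · -- use z + t w for small t avoiding finitely many values
      have hfin : ({0} ∪ (s.image (fun i => - f i z / f i w)) : Finset ℝ).Nonempty := by
        simp
      obtain ⟨t, ht⟩ := Infinite.exists_notMem_finset
        ({0} ∪ (s.image (fun i => - f i z / f i w)) : Finset ℝ)
      simp only [Finset.mem_union, Finset.mem_singleton, Finset.mem_image, not_or, not_exists,
        not_and] at ht
      refine ⟨z + t • w, W.add_mem hz (W.smul_mem t hw), ?_⟩
      intro i hi
      rw [map_add, map_smul, smul_eq_mul]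
      rcases Finset.mem_insert.1 hi with rfl | hi
      · rw [hjz, zero_add]
        exact mul_ne_zero ht.1 hw'
      · intro h0
        by_cases hiw : f i w = 0
        · rw [hiw, mul_zero, add_zero] at h0
          exact hz' i hi h0
        · apply ht.2 i hi
          field_simp
          linarith
    · exact ⟨z, hz, fun i hi => by
        rcases Finset.mem_insert.1 hi with rfl | hi
        · exact hjz
        · exact hz' i hi⟩

/-- a small step does not destroy strict signs and avoids finitely many zeros -/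
lemma exists_small {J : Type*} (s : Finset J) (a b : J → ℝ) (hab : ∀ j ∈ s, a j ≠ 0 ∨ b j ≠ 0) :
    ∃ ε > 0, (∀ j ∈ s, 0 < a j → 0 < a j + ε * b j) ∧ (∀ j ∈ s, a j < 0 → a j + ε * b j < 0) ∧
      ∀ j ∈ s, a j + ε * b j ≠ 0 := by
  classical
  -- eventually near 0+
  have hev : ∀ᶠ ε in nhdsWithin (0:ℝ) (Set.Ioi 0), ∀ j ∈ s,
      (0 < a j → 0 < a j + ε * b j) ∧ (a j < 0 → a j + ε * b j < 0) ∧ a j + ε * b j ≠ 0 := by
    rw [Filter.eventually_all_finset]
    intro j hj
    have hcont : Filter.Tendsto (fun ε : ℝ => a j + ε * b j) (nhdsWithin (0:ℝ) (Set.Ioi 0))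
        (nhds (a j)) := by
      have : Filter.Tendsto (fun ε : ℝ => a j + ε * b j) (nhds 0) (nhds (a j + 0 * b j)) :=
        (continuous_const.add (continuous_id.mul continuous_const)).tendsto 0
      rw [zero_mul, add_zero] at this
      exact this.mono_left nhdsWithin_le_nhds
    rcases lt_trichotomy (a j) 0 with h | h | h
    · have := hcont.eventually_lt_const h
      filter_upwards [this] with ε hε
      exact ⟨fun h' => absurd h' (not_lt.2 h.le), fun _ => hε, hε.ne⟩
    · have hb : b j ≠ 0 := by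
        rcases hab j hj with h' | h'
        · exact absurd h h'
        · exact h'
      filter_upwards [self_mem_nhdsWithin] with ε hε
      refine ⟨fun h' => absurd h' (by rw [h]; exact lt_irrefl 0),
        fun h' => absurd h' (by rw [h]; exact lt_irrefl 0), ?_⟩
      rw [h, zero_add]
      exact mul_ne_zero (ne_of_gt hε) hb
    · have := hcont.eventually_const_lt h
      filter_upwards [this] with ε hε
      exact ⟨fun _ => hε, fun h' => absurd h' (not_lt.2 h.le), hε.ne'⟩
  have hpos : ∀ᶠ ε in nhdsWithin (0:ℝ) (Set.Ioi 0), 0 < ε := self_mem_nhdsWithin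
  obtain ⟨ε, h1, h2⟩ := (hev.and hpos).exists
  exact ⟨ε, h2, fun j hj => (h1 j hj).1, fun j hj => (h1 j hj).2.1, fun j hj => (h1 j hj).2.2⟩

lemma perturb (W : Submodule ℝ (ι → ℝ)) {y : ι → ℝ} (hy : y ∈ W)
    {J : Type*} (s : Finset J) (f : J → ((ι → ℝ) →ₗ[ℝ] ℝ))
    (h : ∀ j ∈ s, ∃ w ∈ W, f j w ≠ 0) :
    ∃ y' ∈ W, (∀ i, 0 < y i → 0 < y' i) ∧ (∀ i, y i < 0 → y' i < 0) ∧ ∀ j ∈ s, f j y' ≠ 0 := by
  classical
  obtain ⟨z, hz, hz'⟩ := exists_generic W s f h
  let a : ι ⊕ J → ℝ := Sum.elim y (fun j => f j y)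
  let b : ι ⊕ J → ℝ := Sum.elim z (fun j => f j z)
  obtain ⟨ε, hε, h1, h2, h3⟩ := exists_small ((univ.filter (fun i => y i ≠ 0)).disjSum s) a b (by
    intro x hx
    rcases x with i | j
    · left
      have := (Finset.inl_mem_disjSum.1 hx)
      exact (Finset.mem_filter.1 this).2
    · right
      exact hz' j (Finset.inr_mem_disjSum.1 hx))
  refine ⟨y + ε • z, W.add_mem hy (W.smul_mem ε hz), ?_, ?_, ?_⟩
  · intro i hi
    have := h1 (Sum.inl i) (Finset.inl_mem_disjSum.2 (by simp [hi.ne'])) hi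
    simpa [a, b] using this
  · intro i hi
    have := h2 (Sum.inl i) (Finset.inl_mem_disjSum.2 (by simp [hi.ne])) hi
    simpa [a, b] using this
  · intro j hj
    have := h3 (Sum.inr j) (Finset.inr_mem_disjSum.2 hj)
    simpa [a, b] using this

/-- a small move in direction `z`: strict signs are kept and zero coordinates take the sign
of `z` -/
lemma nudge (y z : ι → ℝ) :
    ∃ ε : ℝ, 0 < ε ∧ Pos (y + ε • z) = Pos y ∪ (Pos z \ Neg y) ∧
      Neg (y + ε • z) = Neg y ∪ (Neg z \ Pos y) := by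
  classical
  obtain ⟨ε, hε, h1, h2, h3⟩ := exists_small (univ.filter (fun i => y i ≠ 0 ∨ z i ≠ 0)) y z (by
    intro j hj
    exact (Finset.mem_filter.1 hj).2)
  refine ⟨ε, hε, ?_, ?_⟩
  · ext i
    simp only [mem_Pos, Finset.mem_union, Finset.mem_sdiff, mem_Neg, Pi.add_apply, Pi.smul_apply,
      smul_eq_mul]
    rcases lt_trichotomy (y i) 0 with hy | hy | hy
    · have := h2 i (by simp [hy.ne]) hy
      constructor
      · intro h; linarith
      · rintro (h | h)
        · linarith
        · exact absurd hy h.2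
    · rw [hy, zero_add]
      constructor
      · intro h
        right
        refine ⟨?_, lt_irrefl 0⟩
        by_contra hcon
        have := mul_nonneg hε.le (neg_nonneg.2 (not_lt.1 hcon))
        linarith
      · rintro (h | h)
        · exact absurd h (lt_irrefl 0)
        · exact mul_pos hε h.1
    · have := h1 i (by simp [hy.ne']) hy
      exact ⟨fun _ => Or.inl hy, fun _ => this⟩
  · ext i
    simp only [mem_Pos, Finset.mem_union, Finset.mem_sdiff, mem_Neg, Pi.add_apply, Pi.smul_apply,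
      smul_eq_mul]
    rcases lt_trichotomy (y i) 0 with hy | hy | hy
    · have := h2 i (by simp [hy.ne]) hy
      exact ⟨fun _ => Or.inl hy, fun _ => this⟩
    · rw [hy, zero_add]
      constructor
      · intro h
        right
        refine ⟨?_, lt_irrefl 0⟩
        by_contra hcon
        have := mul_nonneg hε.le (not_lt.1 hcon)
        linarith
      · rintro (h | h)
        · exact absurd h (lt_irrefl 0)
        · exact mul_neg_of_pos_of_neg hε h.1
    · have := h1 i (by simp [hy.ne']) hy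
      constructor
      · intro h; linarith
      · rintro (h | h)
        · linarith
        · exact absurd hy h.2

/-- first crossing along a line -/
lemma crossing (y u : ι → ℝ) (h0 : ∀ i, y i = 0 → u i = 0) (hI : ∃ i, y i * u i < 0) :
    ∃ Z : Finset ι, Z.Nonempty ∧ (∀ i ∈ Z, y i * u i < 0) ∧
      (∀ i ∈ Z, ∀ j ∈ Z, y i * u j = y j * u i) ∧
      (∃ t : ℝ, Pos (y + t • u) = Pos y \ Z ∧ Neg (y + t • u) = Neg y \ Z) ∧
      (∃ t : ℝ, Pos (y + t • u) = (Pos y \ Z) ∪ (Neg y ∩ Z) ∧
        Neg (y + t • u) = (Neg y \ Z) ∪ (Pos y ∩ Z)) := by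
  classical
  obtain ⟨i0, hi0⟩ := hI
  obtain ⟨m, hm, hmin⟩ := Finset.exists_min_image (univ.filter (fun i => y i * u i < 0))
    (fun i => - y i / u i) ⟨i0, by simpa using hi0⟩
  simp only [Finset.mem_filter, Finset.mem_univ, true_and] at hm hmin
  set t0 : ℝ := - y m / u m with ht0
  have hum : u m ≠ 0 := by rintro h; rw [h] at hm; simp at hm
  have hneg : ∀ i, y i * u i < 0 → t0 ≤ - y i / u i := fun i hi => hmin i hi
  have ht0pos : 0 < t0 := by
    rw [ht0]
    rcases lt_or_gt_of_ne hum with h | h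
    · have : 0 < y m := by
        by_contra hc
        have := mul_nonneg_of_nonpos_of_nonpos (not_lt.1 hc) h.le
        linarith
      exact div_pos_of_neg_of_neg (by linarith) h
    · have : y m < 0 := by
        by_contra hc
        have := mul_nonneg (not_lt.1 hc) h.le
        linarith
      exact div_pos (by linarith) h
  let Z : Finset ι := univ.filter (fun i => y i * u i < 0 ∧ y i + t0 * u i = 0)
  have hZ : ∀ i, i ∈ Z ↔ (y i * u i < 0 ∧ y i + t0 * u i = 0) := by
    intro i; simp [Z]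
  -- values at t0
  have hposval : ∀ i, i ∉ Z → 0 < y i → 0 < y i + t0 * u i := by
    intro i hi hy
    rcases le_or_gt 0 (u i) with h | h
    · have := mul_nonneg ht0pos.le h
      linarith
    · have hyu : y i * u i < 0 := mul_neg_of_pos_of_neg hy h
      have h1 := hneg i hyu
      rw [le_div_iff_of_neg h] at h1
      rcases lt_or_eq_of_le h1 with h2 | h2
      · linarith
      · exact absurd ((hZ i).2 ⟨hyu, by linarith⟩) hi
  have hnegval : ∀ i, i ∉ Z → y i < 0 → y i + t0 * u i < 0 := by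
    intro i hi hy
    rcases le_or_gt (u i) 0 with h | h
    · have := mul_nonneg ht0pos.le (neg_nonneg.2 h)
      linarith
    · have hyu : y i * u i < 0 := mul_neg_of_neg_of_pos hy h
      have h1 := hneg i hyu
      rw [le_div_iff₀ h] at h1
      rcases lt_or_eq_of_le h1 with h2 | h2
      · linarith
      · exact absurd ((hZ i).2 ⟨hyu, by linarith⟩) hi
  refine ⟨Z, ⟨m, (hZ m).2 ⟨hm, by rw [ht0]; field_simp; ring⟩⟩, fun i hi => ((hZ i).1 hi).1, ?_,
    ⟨t0, ?_, ?_⟩, ?_⟩
  · intro i hi j hj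
    have h1 := ((hZ i).1 hi).2
    have h2 := ((hZ j).1 hj).2
    have h3 : y i = - t0 * u i := by linarith
    have h4 : y j = - t0 * u j := by linarith
    rw [h3, h4]; ring
  · ext i
    simp only [mem_Pos, Finset.mem_sdiff, Pi.add_apply, Pi.smul_apply, smul_eq_mul]
    by_cases hi : i ∈ Z
    · have := ((hZ i).1 hi).2
      rw [this]
      simp [hi]
    · simp only [hi, not_false_eq_true, and_true]
      rcases lt_trichotomy (y i) 0 with hy | hy | hy
      · have := hnegval i hi hy
        constructor <;> intro h <;> linarith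
      · rw [h0 i hy, hy]; simp
      · exact ⟨fun _ => hy, fun _ => hposval i hi hy⟩
  · ext i
    simp only [mem_Neg, Finset.mem_sdiff, Pi.add_apply, Pi.smul_apply, smul_eq_mul]
    by_cases hi : i ∈ Z
    · have := ((hZ i).1 hi).2
      rw [this]
      simp [hi]
    · simp only [hi, not_false_eq_true, and_true]
      rcases lt_trichotomy (y i) 0 with hy | hy | hy
      · exact ⟨fun _ => hy, fun _ => hnegval i hi hy⟩
      · rw [h0 i hy, hy]; simp
      · have := hposval i hi hy
        constructor <;> intro h <;> linarith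
  · obtain ⟨ε, hε, h1, h2, h3⟩ := exists_small (univ.filter (fun i => y i ≠ 0))
      (fun i => y i + t0 * u i) u (by
        intro i hi
        have hyi := (Finset.mem_filter.1 hi).2
        by_cases hiZ : i ∈ Z
        · right
          intro h
          have := ((hZ i).1 hiZ).1
          rw [h] at this; simp at this
        · left
          rcases lt_or_gt_of_ne hyi with h | h
          · exact (hnegval i hiZ h).ne
          · exact (hposval i hiZ h).ne')
    have hval : ∀ i, (y + (t0 + ε) • u) i = (y i + t0 * u i) + ε * u i := by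
      intro i; simp [add_mul, add_assoc]
    refine ⟨t0 + ε, ?_, ?_⟩
    · ext i
      simp only [mem_Pos, Finset.mem_union, Finset.mem_sdiff, Finset.mem_inter, mem_Neg, hval]
      by_cases hi : i ∈ Z
      · obtain ⟨h4, h5⟩ := (hZ i).1 hi
        rw [h5, zero_add]
        simp only [hi, not_true_eq_false, and_false, and_true, false_or]
        constructor
        · intro h
          have hu : 0 < u i := by
            by_contra hc
            have := mul_nonneg hε.le (neg_nonneg.2 (not_lt.1 hc))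
            linarith
          by_contra hc
          have := mul_nonneg (not_lt.1 hc) hu.le
          linarith
        · intro h
          have hu : 0 < u i := by
            by_contra hc
            have := mul_nonneg_of_nonpos_of_nonpos h.le (not_lt.1 hc)
            linarith
          exact mul_pos hε hu
      · simp only [hi, not_false_eq_true, and_true, and_false, or_false]
        rcases lt_trichotomy (y i) 0 with hy | hy | hy
        · have := h2 i (by simp [hy.ne]) (hnegval i hi hy)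
          constructor <;> intro h <;> linarith
        · rw [h0 i hy, hy]; simp
        · exact ⟨fun _ => hy, fun _ => h1 i (by simp [hy.ne']) (hposval i hi hy)⟩
    · ext i
      simp only [mem_Pos, Finset.mem_union, Finset.mem_sdiff, Finset.mem_inter, mem_Neg, hval]
      by_cases hi : i ∈ Z
      · obtain ⟨h4, h5⟩ := (hZ i).1 hi
        rw [h5, zero_add]
        simp only [hi, not_true_eq_false, and_false, and_true, false_or]
        constructor
        · intro h
          have hu : u i < 0 := by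
            by_contra hc
            have := mul_nonneg hε.le (not_lt.1 hc)
            linarith
          by_contra hc
          have := mul_nonneg_of_nonpos_of_nonpos (not_lt.1 hc) hu.le
          linarith
        · intro h
          have hu : u i < 0 := by
            by_contra hc
            have := mul_nonneg h.le (not_lt.1 hc)
            linarith
          exact mul_neg_of_pos_of_neg hε hu
      · simp only [hi, not_false_eq_true, and_true, and_false, or_false]
        rcases lt_trichotomy (y i) 0 with hy | hy | hy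
        · exact ⟨fun _ => hy, fun _ => h2 i (by simp [hy.ne]) (hnegval i hi hy)⟩
        · rw [h0 i hy, hy]; simp
        · have := h1 i (by simp [hy.ne']) (hposval i hi hy)
          constructor <;> intro h <;> linarith

/-! ### The simple case -/

/-- conclusion of the core theorem -/
def Good (k : ℕ) (U : Submodule ℝ (ι → ℝ)) : Prop :=
  ∃ l ∈ U, (∀ i ∈ act U, l i ≠ 0) ∧ kap U (Pos l) + kap U (Neg l) + (k + 1) ≤ finrank ℝ U

/-- no two coordinates are proportional on `U` -/
def Simple (U : Submodule ℝ (ι → ℝ)) : Prop :=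
  ∀ i ∈ act U, ∀ j ∈ act U, i ≠ j → ¬ ∃ α : ℝ, ∀ μ ∈ U, μ i = α * μ j

lemma exists_nowhere_zero (U : Submodule ℝ (ι → ℝ)) : ∃ l ∈ U, ∀ i ∈ act U, l i ≠ 0 := by
  obtain ⟨z, hz, hz'⟩ := exists_generic U (act U) (fun i => LinearMap.proj i) (by
    intro i hi
    obtain ⟨μ, hμ, h0⟩ := mem_act.1 hi
    exact ⟨μ, hμ, h0⟩)
  exact ⟨z, hz, fun i hi => hz' i hi⟩

lemma Pos_neg (l : ι → ℝ) : Pos (-l) = Neg l := by
  ext i; simp [mem_Pos, mem_Neg]

lemma Neg_neg (l : ι → ℝ) : Neg (-l) = Pos l := by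
  ext i; simp [mem_Pos, mem_Neg]

lemma mem_Pos_or_Neg {l : ι → ℝ} {i : ι} (h : l i ≠ 0) : i ∈ Pos l ∨ i ∈ Neg l := by
  rcases lt_or_gt_of_ne h with h | h
  · exact Or.inr (mem_Neg.2 h)
  · exact Or.inl (mem_Pos.2 h)

lemma same_signs {l l' : ι → ℝ}
    (h1 : ∀ i, 0 < l i → 0 < l' i) (h2 : ∀ i, l i < 0 → l' i < 0)
    (h3 : ∀ i, l i = 0 → l' i = 0) : Pos l' = Pos l ∧ Neg l' = Neg l := by
  constructor
  · ext i
    rw [mem_Pos, mem_Pos]
    rcases lt_trichotomy (l i) 0 with h | h | h
    · have := h2 i h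
      constructor <;> intro h' <;> linarith
    · rw [h3 i h, h]
    · exact ⟨fun _ => h, fun _ => h1 i h⟩
  · ext i
    rw [mem_Neg, mem_Neg]
    rcases lt_trichotomy (l i) 0 with h | h | h
    · exact ⟨fun _ => h, fun _ => h2 i h⟩
    · rw [h3 i h, h]
    · have := h1 i h
      constructor <;> intro h' <;> linarith

lemma exists_of_kap_lt {U : Submodule ℝ (ι → ℝ)} {S : Finset ι} {b : ι}
    (h : kap U (insert b S) < kap U S) : ∃ ν ∈ K U S, ν b ≠ 0 := by
  by_contra hcon
  push Not at hcon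
  have : K U S ≤ K U (insert b S) := by
    intro ν hν
    refine ⟨hν.1, fun i hi => ?_⟩
    rcases Finset.mem_insert.1 hi with rfl | hi
    · exact hcon ν hν
    · exact hν.2 i hi
  have := kap_le_of_le this
  omega

lemma wall_aux {U : Submodule ℝ (ι → ℝ)}
    (H2 : ∀ μ ∈ U, μ ≠ 0 → ∃ i, μ i < 0) (hs : Simple U) {kt : ℕ}
    (hmin : ∀ l ∈ U, (∀ i ∈ act U, l i ≠ 0) → kt ≤ kap U (Pos l) + kap U (Neg l))
    (l : ι → ℝ) (hl : l ∈ U) (hl0 : ∀ i ∈ act U, l i ≠ 0)
    (hlk : kap U (Pos l) + kap U (Neg l) = kt) (hN : 1 ≤ kap U (Neg l)) :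
    ∃ y ∈ U, ∃ b ∈ act U, y b = 0 ∧ (∀ i ∈ act U, i ≠ b → y i ≠ 0) ∧
      (∃ ν ∈ K U (Pos y), ν b ≠ 0) ∧ (∃ ν ∈ K U (Neg y), ν b ≠ 0) ∧
      kt + 1 = kap U (Pos y) + kap U (Neg y) := by
  classical
  have hne : K U (Neg l) ≠ ⊥ := by
    intro h
    rw [kap, h] at hN
    simp at hN
  obtain ⟨h, hh, hh0⟩ := Submodule.exists_mem_ne_zero_of_ne_bot hne
  have hact : ∀ i, h i ≠ 0 → i ∈ act U := fun i hi => mem_act.2 ⟨h, hh.1, hi⟩
  obtain ⟨l', hl', h1, h2, h3⟩ := perturb U hl
    (univ.filter (fun p : ι × ι => h p.1 ≠ 0 ∧ h p.2 ≠ 0 ∧ p.1 ≠ p.2))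
    (fun p => h p.2 • LinearMap.proj p.1 - h p.1 • LinearMap.proj p.2) (by
      rintro ⟨i, j⟩ hp
      simp only [Finset.mem_filter, Finset.mem_univ, true_and] at hp
      by_contra hcon
      push Not at hcon
      apply hs i (hact i hp.1) j (hact j hp.2.1) hp.2.2
      refine ⟨h i / h j, fun μ hμ => ?_⟩
      have := hcon μ hμ
      simp only [LinearMap.sub_apply, LinearMap.smul_apply, LinearMap.proj_apply,
        smul_eq_mul] at this
      have hj := hp.2.1
      field_simp
      linarith)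
  have hz : ∀ i, l i = 0 → l' i = 0 := by
    intro i hi
    exact not_act (fun hc => hl0 i hc hi) hl'
  obtain ⟨hP, hNg⟩ := same_signs h1 h2 hz
  have hl'0 : ∀ i ∈ act U, l' i ≠ 0 := by
    intro i hi
    rcases lt_or_gt_of_ne (hl0 i hi) with h' | h'
    · exact (h2 i h').ne
    · exact (h1 i h').ne'
  obtain ⟨i0, hi0⟩ := H2 h hh.1 hh0
  have hi0P : 0 < l' i0 := by
    rcases lt_or_gt_of_ne (hl'0 i0 (hact i0 hi0.ne)) with h' | h'
    · exfalso
      have : i0 ∈ Neg l := by rw [← hNg]; exact mem_Neg.2 h'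
      have := hh.2 i0 this
      linarith
    · exact h'
  obtain ⟨Z, hZne, hZ1, hZ2, ⟨t0, ht0P, ht0N⟩, ⟨t, htP, htN⟩⟩ := crossing l' h
    (fun i hi => by
      by_contra hc
      exact hl'0 i (hact i hc) hi)
    ⟨i0, mul_neg_of_pos_of_neg hi0P hi0⟩
  obtain ⟨b, hb⟩ := hZne
  have hhb : h b ≠ 0 := by
    intro hc
    have := hZ1 b hb
    rw [hc] at this; simp at this
  have hZb : Z = {b} := by
    apply Finset.eq_singleton_iff_unique_mem.2 ⟨hb, ?_⟩
    intro j hj
    by_contra hjb
    have hhj : h j ≠ 0 := by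
      intro hc
      have := hZ1 j hj
      rw [hc] at this; simp at this
    have h4 := h3 (j, b) (by simp [hhj, hhb, hjb])
    apply h4
    have h5 := hZ2 j hj b hb
    simp only [LinearMap.sub_apply, LinearMap.smul_apply, LinearMap.proj_apply, smul_eq_mul]
    linarith
  have hbN : b ∉ Neg l := fun hc => hhb (hh.2 b hc)
  have hbP : b ∈ Pos l := by
    rcases mem_Pos_or_Neg (hl0 b (hact b hhb)) with h' | h'
    · exact h'
    · exact absurd h' hbN
  rw [hZb, hP] at ht0P
  rw [hZb, hNg] at ht0N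
  rw [hZb, hP, hNg] at htP htN
  have hNy : Neg (l' + t0 • h) = Neg l := by
    rw [ht0N, Finset.sdiff_singleton_eq_erase, Finset.erase_eq_of_notMem hbN]
  have hNt : Neg (l' + t • h) = insert b (Neg l) := by
    rw [htN]
    ext i
    simp only [Finset.mem_union, Finset.mem_sdiff, Finset.mem_singleton, Finset.mem_inter,
      Finset.mem_insert]
    constructor
    · rintro (⟨h', _⟩ | ⟨_, h'⟩)
      · exact Or.inr h'
      · exact Or.inl h'
    · rintro (rfl | h')
      · exact Or.inr ⟨hbP, rfl⟩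
      · left
        exact ⟨h', fun hc => hbN (hc ▸ h')⟩
  have hPt : Pos (l' + t • h) = Pos l \ {b} := by
    rw [htP]
    ext i
    simp only [Finset.mem_union, Finset.mem_sdiff, Finset.mem_singleton, Finset.mem_inter]
    constructor
    · rintro (h' | ⟨h', rfl⟩)
      · exact h'
      · exact absurd h' hbN
    · exact fun h' => Or.inl h'
  have hins : insert b (Pos l \ {b}) = Pos l := by
    ext i
    simp only [Finset.mem_insert, Finset.mem_sdiff, Finset.mem_singleton]
    constructor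
    · rintro (rfl | h')
      · exact hbP
      · exact h'.1
    · intro h'
      by_cases hib : i = b
      · exact Or.inl hib
      · exact Or.inr ⟨h', hib⟩
  -- minimality
  have hm1 := hmin (l' + t • h) (U.add_mem hl' (U.smul_mem t hh.1)) (by
    intro i hi
    by_cases hib : i = b
    · rw [hib]
      exact (mem_Neg.1 (by rw [hNt]; exact Finset.mem_insert_self b _)).ne
    · rcases mem_Pos_or_Neg (hl0 i hi) with h' | h'
      · exact (mem_Pos.1 (by rw [hPt]; simp [h', hib] : i ∈ Pos (l' + t • h))).ne'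
      · exact (mem_Neg.1 (by rw [hNt]; simp [h'] : i ∈ Neg (l' + t • h))).ne)
  rw [hPt, hNt] at hm1
  have hk1 := kap_insert_of_ne U (Neg l) b ⟨h, hh, hhb⟩
  have hk2 := kap_le_insert U (Pos l \ {b}) b
  rw [hins] at hk2
  refine ⟨l' + t0 • h, U.add_mem hl' (U.smul_mem t0 hh.1), b, hact b hhb, ?_, ?_, ?_, ?_, ?_⟩
  · by_contra hc
    rcases mem_Pos_or_Neg hc with h' | h'
    · rw [ht0P] at h'; simp at h'
    · rw [hNy] at h'; exact hbN h'
  · intro i hi hib
    rcases mem_Pos_or_Neg (hl0 i hi) with h' | h'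
    · exact (mem_Pos.1 (by rw [ht0P]; simp [h', hib] : i ∈ Pos (l' + t0 • h))).ne'
    · exact (mem_Neg.1 (by rw [hNy]; exact h' : i ∈ Neg (l' + t0 • h))).ne
  · rw [ht0P]
    apply exists_of_kap_lt
    rw [hins]
    omega
  · rw [hNy]
    exact ⟨h, hh, hhb⟩
  · rw [ht0P, hNy]
    omega

lemma wall {U : Submodule ℝ (ι → ℝ)}
    (H2 : ∀ μ ∈ U, μ ≠ 0 → ∃ i, μ i < 0) (hs : Simple U) {kt : ℕ}
    (hmin : ∀ l ∈ U, (∀ i ∈ act U, l i ≠ 0) → kt ≤ kap U (Pos l) + kap U (Neg l))
    (hex : ∃ l ∈ U, (∀ i ∈ act U, l i ≠ 0) ∧ kap U (Pos l) + kap U (Neg l) = kt)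
    (hkt : 1 ≤ kt) :
    ∃ y ∈ U, ∃ b ∈ act U, y b = 0 ∧ (∀ i ∈ act U, i ≠ b → y i ≠ 0) ∧
      (∃ ν ∈ K U (Pos y), ν b ≠ 0) ∧ (∃ ν ∈ K U (Neg y), ν b ≠ 0) ∧
      kt + 1 = kap U (Pos y) + kap U (Neg y) := by
  obtain ⟨l, hl, hl0, hlk⟩ := hex
  rcases Nat.eq_zero_or_pos (kap U (Neg l)) with h | h
  · refine wall_aux H2 hs hmin (-l) (U.neg_mem hl) (fun i hi => by simpa using hl0 i hi) ?_ ?_
    · rw [Pos_neg, Neg_neg]; omega
    · rw [Neg_neg]; omega
  · exact wall_aux H2 hs hmin l hl hl0 hlk h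

lemma kap_sdiff_coloops (U : Submodule ℝ (ι → ℝ)) (P D : Finset ι) (hDP : D ⊆ P)
    (hD : ∀ i ∈ D, ∃ μ ∈ K U (P.erase i), μ i ≠ 0) :
    kap U P + D.card ≤ kap U (P \ D) := by
  induction D using Finset.induction_on with
  | empty => simp
  | insert i D hi ih =>
    have h1 := ih (fun j hj => hDP (Finset.mem_insert_of_mem hj))
      (fun j hj => hD j (Finset.mem_insert_of_mem hj))
    have hiP : i ∈ P := hDP (Finset.mem_insert_self i D)
    have h2 : P \ insert i D = (P \ D).erase i := by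
      ext j
      simp only [Finset.mem_sdiff, Finset.mem_insert, Finset.mem_erase, not_or]
      tauto
    have h3 : insert i ((P \ D).erase i) = P \ D :=
      Finset.insert_erase (Finset.mem_sdiff.2 ⟨hiP, hi⟩)
    obtain ⟨μ, hμ, hμi⟩ := hD i (Finset.mem_insert_self i D)
    have h4 := kap_insert_of_ne U ((P \ D).erase i) i
      ⟨μ, K_anti U (Finset.erase_subset_erase i Finset.sdiff_subset) hμ, hμi⟩
    rw [h3] at h4
    rw [h2, Finset.card_insert_of_notMem hi]
    omega

/-- after leaving the wall: contradiction with minimality -/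
lemma leave_wall {U : Submodule ℝ (ι → ℝ)} {kt : ℕ}
    (hmin : ∀ l ∈ U, (∀ i ∈ act U, l i ≠ 0) → kt ≤ kap U (Pos l) + kap U (Neg l))
    {y z : ι → ℝ} (hy : y ∈ U) (hz : z ∈ U) {b : ι} (hyb : y b = 0)
    (hzb : 0 < z b) (hy0 : ∀ i ∈ act U, i ≠ b → y i ≠ 0) :
    kt ≤ kap U (insert b (Pos y)) + kap U (Neg y) := by
  obtain ⟨ε, hε, h1, h2⟩ := nudge y z
  have hb : b ∈ Pos (y + ε • z) := by
    rw [h1]
    refine Finset.mem_union_right _ (Finset.mem_sdiff.2 ⟨mem_Pos.2 hzb, ?_⟩)
    intro hc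
    have := mem_Neg.1 hc
    linarith
  have hPs : Pos y ⊆ Pos (y + ε • z) := by rw [h1]; exact Finset.subset_union_left
  have hNs : Neg y ⊆ Neg (y + ε • z) := by rw [h2]; exact Finset.subset_union_left
  have h3 := hmin (y + ε • z) (U.add_mem hy (U.smul_mem ε hz)) (by
    intro i hi
    by_cases hib : i = b
    · rw [hib]; exact (mem_Pos.1 hb).ne'
    · rcases mem_Pos_or_Neg (hy0 i hi hib) with h' | h'
      · exact (mem_Pos.1 (hPs h')).ne'
      · exact (mem_Neg.1 (hNs h')).ne)
  have h4 : kap U (Pos (y + ε • z)) ≤ kap U (insert b (Pos y)) :=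
    kap_anti U (Finset.insert_subset hb hPs)
  have h5 := kap_anti U hNs
  omega

lemma leave_wall' {U : Submodule ℝ (ι → ℝ)} {kt : ℕ}
    (hmin : ∀ l ∈ U, (∀ i ∈ act U, l i ≠ 0) → kt ≤ kap U (Pos l) + kap U (Neg l))
    {y z : ι → ℝ} (hy : y ∈ U) (hz : z ∈ U) {b : ι} (hyb : y b = 0)
    (hzb : 0 < z b) (hy0 : ∀ i ∈ act U, i ≠ b → y i ≠ 0) :
    kt ≤ kap U (Pos y) + kap U (insert b (Neg y)) := by
  have h := leave_wall (y := -y) (z := z) hmin (U.neg_mem hy) hz (by simp [hyb]) hzb
    (fun i hi hib => by simpa using hy0 i hi hib)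
  rw [Pos_neg, Neg_neg] at h
  omega

/-- two elements of `P` cannot be proportional modulo `b` -/
lemma no_two {U : Submodule ℝ (ι → ℝ)} (hs : Simple U) {P : Finset ι} {b : ι}
    {ν : ι → ℝ} (hν : ν ∈ K U P) (hνb : ν b ≠ 0) {u : ι → ℝ} {i j : ι}
    (hi : i ∈ P) (hj : j ∈ P) (huj : u j ≠ 0)
    (hia : i ∈ act U) (hja : j ∈ act U)
    (h : ∀ w ∈ K U {b}, w i * u j = w j * u i) : i = j := by
  by_contra hij
  apply hs i hia j hja hij
  refine ⟨u i / u j, fun μ hμ => ?_⟩
  have hw : μ - (μ b / ν b) • ν ∈ K U {b} := by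
    refine ⟨U.sub_mem hμ (U.smul_mem _ hν.1), fun x hx => ?_⟩
    rw [Finset.mem_singleton] at hx
    subst hx
    simp only [Pi.sub_apply, Pi.smul_apply, smul_eq_mul]
    field_simp
    ring
  have h1 := h _ hw
  simp only [Pi.sub_apply, Pi.smul_apply, smul_eq_mul, hν.2 i hi, hν.2 j hj, mul_zero,
    sub_zero] at h1
  field_simp
  linarith

lemma simple_case {k : ℕ} {U : Submodule ℝ (ι → ℝ)} (hm : k + 1 ≤ finrank ℝ U)
    (hn : (act U).card ≤ 2 * finrank ℝ U + 1)
    (H1 : ∀ μ ∈ U, μ ≠ 0 → k + 2 ≤ (univ.filter (fun i => μ i ≠ 0)).card)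
    (H2 : ∀ μ ∈ U, μ ≠ 0 → ∃ i, μ i < 0) (hs : Simple U) : Good k U := by
  classical
  by_contra hbad
  have hbad' : ∀ l ∈ U, (∀ i ∈ act U, l i ≠ 0) →
      finrank ℝ U < kap U (Pos l) + kap U (Neg l) + (k + 1) := by
    intro l hl hl0
    by_contra hc
    exact hbad ⟨l, hl, hl0, not_lt.1 hc⟩
  -- minimal total kernel
  have hexn : ∃ n, ∃ l ∈ U, (∀ i ∈ act U, l i ≠ 0) ∧ kap U (Pos l) + kap U (Neg l) = n := by
    obtain ⟨l, hl, hl0⟩ := exists_nowhere_zero U
    exact ⟨_, l, hl, hl0, rfl⟩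
  set kt := Nat.find hexn with hktdef
  have hex := Nat.find_spec hexn
  rw [← hktdef] at hex
  have hmin : ∀ l ∈ U, (∀ i ∈ act U, l i ≠ 0) → kt ≤ kap U (Pos l) + kap U (Neg l) :=
    fun l hl hl0 => Nat.find_min' hexn ⟨l, hl, hl0, rfl⟩
  have hktb : finrank ℝ U < kt + (k + 1) := by
    obtain ⟨l, hl, hl0, hlk⟩ := hex
    have := hbad' l hl hl0
    omega
  obtain ⟨y, hy, b, hb, hyb, hy0, ⟨ν, hν, hνb⟩, ⟨ν', hν', hν'b⟩, hsum⟩ :=
    wall H2 hs hmin hex (by omega)
  set P := Pos y with hP
  set Q := Neg y with hQ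
  have hPQ : Disjoint P Q := by
    rw [Finset.disjoint_left]
    intro i hi hi'
    have h1 := mem_Pos.1 hi
    have h2 := mem_Neg.1 hi'
    linarith
  have hbP : b ∉ P := fun h => by have := mem_Pos.1 h; linarith
  have hbQ : b ∉ Q := fun h => by have := mem_Neg.1 h; linarith
  have hPact : P ⊆ act U := fun i hi => mem_act.2 ⟨y, hy, (mem_Pos.1 hi).ne'⟩
  have hQact : Q ⊆ act U := fun i hi => mem_act.2 ⟨y, hy, (mem_Neg.1 hi).ne⟩
  have hcov : ∀ i ∈ act U, i = b ∨ i ∈ P ∨ i ∈ Q := by
    intro i hi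
    by_cases hib : i = b
    · exact Or.inl hib
    · exact Or.inr (mem_Pos_or_Neg (hy0 i hi hib))
  have hkP : 1 ≤ kap U P := by
    have := kap_insert_of_ne U P b ⟨ν, hν, hνb⟩
    omega
  have hkQ : 1 ≤ kap U Q := by
    have := kap_insert_of_ne U Q b ⟨ν', hν', hν'b⟩
    omega
  let Bp : Finset ι := P.filter (fun i => ∃ μ ∈ K U (P.erase i), μ i ≠ 0)
  let Bq : Finset ι := Q.filter (fun i => ∃ μ ∈ K U (Q.erase i), μ i ≠ 0)
  let B : Finset ι := insert b (Bp ∪ Bq)
  let C : Finset ι := act U \ (act (K U P) ∪ act (K U Q))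
  have hcP := card_act_ge H1 (K U P) (K_le U P) hkP
  have hcQ := card_act_ge H1 (K U Q) (K_le U Q) hkQ
  rw [← kap] at hcP hcQ
  have hKPact : ∀ i ∈ P, i ∉ act (K U P) := by
    intro i hi hc
    obtain ⟨μ, hμ, h0⟩ := mem_act.1 hc
    exact h0 (hμ.2 i hi)
  have hKQact : ∀ i ∈ Q, i ∉ act (K U Q) := by
    intro i hi hc
    obtain ⟨μ, hμ, h0⟩ := mem_act.1 hc
    exact h0 (hμ.2 i hi)
  have hinter : act (K U P) ∩ act (K U Q) ⊆ {b} := by
    intro i hi
    rw [Finset.mem_inter] at hi
    rcases hcov i (act_mono (K_le U P) hi.1) with h | h | h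
    · exact Finset.mem_singleton.2 h
    · exact absurd hi.1 (hKPact i h)
    · exact absurd hi.2 (hKQact i h)
  have hCcard : C.card + (kap U P + k + 1) + (kap U Q + k + 1) ≤ (act U).card + 1 := by
    have h1 : C.card = (act U).card - (act (K U P) ∪ act (K U Q)).card := by
      apply Finset.card_sdiff_of_subset
      exact Finset.union_subset (act_mono (K_le U P)) (act_mono (K_le U Q))
    have h2 : (act (K U P) ∪ act (K U Q)).card ≤ (act U).card :=
      Finset.card_le_card (Finset.union_subset (act_mono (K_le U P)) (act_mono (K_le U Q)))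
    have h3 := Finset.card_union_add_card_inter (act (K U P)) (act (K U Q))
    have h4 := Finset.card_le_card hinter
    rw [Finset.card_singleton] at h4
    omega
  have hBpc := kap_sdiff_coloops U P Bp (Finset.filter_subset _ _)
    (fun i hi => (Finset.mem_filter.1 hi).2)
  have hBqc := kap_sdiff_coloops U Q Bq (Finset.filter_subset _ _)
    (fun i hi => (Finset.mem_filter.1 hi).2)
  have hBcard : B.card ≤ 1 + Bp.card + Bq.card := by
    show (insert b (Bp ∪ Bq)).card ≤ _
    have h1 := Finset.card_insert_le b (Bp ∪ Bq)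
    have h2 := Finset.card_union_le Bp Bq
    omega
  have hunion := kap_union_add U (P \ Bp) (Q \ Bq)
  have hk0 : kap U ((P \ Bp) ∪ (Q \ Bq)) = 0 := by
    by_contra hne
    have h1 := card_act_ge H1 (K U ((P \ Bp) ∪ (Q \ Bq))) (K_le U _) (by rw [← kap]; omega)
    rw [← kap] at h1
    have h2 : act (K U ((P \ Bp) ∪ (Q \ Bq))) ⊆ B := by
      intro i hi
      have hiU := act_mono (K_le U _) hi
      obtain ⟨μ, hμ, h0⟩ := mem_act.1 hi
      by_contra hiB
      have hib : i ≠ b := fun h => hiB (by rw [h]; exact Finset.mem_insert_self b _)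
      have hiBp : i ∉ Bp := fun h => hiB (Finset.mem_insert_of_mem (Finset.mem_union_left _ h))
      have hiBq : i ∉ Bq := fun h => hiB (Finset.mem_insert_of_mem (Finset.mem_union_right _ h))
      apply h0
      apply hμ.2
      rcases hcov i hiU with h | h | h
      · exact absurd h hib
      · exact Finset.mem_union_left _ (Finset.mem_sdiff.2 ⟨h, hiBp⟩)
      · exact Finset.mem_union_right _ (Finset.mem_sdiff.2 ⟨h, hiBq⟩)
    have h3 := Finset.card_le_card h2
    omega
  have hBC : (B ∪ C).card < finrank ℝ U := by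
    have := Finset.card_union_le B C
    omega
  have hkBC : 1 ≤ kap U (B ∪ C) := by
    have := finrank_le_kap_add_card U (B ∪ C)
    omega
  -- a direction vanishing on B and C
  obtain ⟨u, hu, ⟨i0, hi0⟩⟩ : ∃ u ∈ K U (B ∪ C), ∃ i, y i * u i < 0 := by
    have hne : K U (B ∪ C) ≠ ⊥ := by
      intro h
      rw [kap, h] at hkBC
      simp at hkBC
    obtain ⟨u, hu, hu0⟩ := Submodule.exists_mem_ne_zero_of_ne_bot hne
    obtain ⟨i, hi⟩ : ∃ i, u i ≠ 0 := by
      by_contra hcon
      push Not at hcon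
      exact hu0 (funext hcon)
    have hia : i ∈ act U := mem_act.2 ⟨u, hu.1, hi⟩
    have hib : i ≠ b := by
      rintro rfl
      exact hi (hu.2 i (Finset.mem_union_left _ (Finset.mem_insert_self i _)))
    have hyi := hy0 i hia hib
    rcases lt_or_gt_of_ne (mul_ne_zero hyi hi) with h | h
    · exact ⟨u, hu, i, h⟩
    · exact ⟨-u, (K U (B ∪ C)).neg_mem hu, i, by
        simp only [Pi.neg_apply, mul_neg]; linarith⟩
  have hub : u b = 0 := hu.2 b (Finset.mem_union_left _ (Finset.mem_insert_self b _))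
  have hyW : y ∈ K U {b} := ⟨hy, fun i hi => by rw [Finset.mem_singleton.1 hi]; exact hyb⟩
  obtain ⟨y', hy', h1, h2, h3⟩ := perturb (K U {b}) hyW
    (univ.filter (fun p : ι × ι => ∃ w ∈ K U {b}, w p.1 * u p.2 ≠ w p.2 * u p.1))
    (fun p => u p.2 • LinearMap.proj p.1 - u p.1 • LinearMap.proj p.2) (by
      rintro ⟨i, j⟩ hp
      simp only [Finset.mem_filter, Finset.mem_univ, true_and] at hp
      obtain ⟨w, hw, hne⟩ := hp
      refine ⟨w, hw, ?_⟩
      simp only [LinearMap.sub_apply, LinearMap.smul_apply, LinearMap.proj_apply, smul_eq_mul]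
      intro h
      apply hne
      linarith)
  have hy'b : y' b = 0 := hy'.2 b (Finset.mem_singleton_self b)
  have hzero : ∀ i, y i = 0 → y' i = 0 := by
    intro i hi
    by_cases hib : i = b
    · rw [hib]; exact hy'b
    · exact not_act (fun hc => hy0 i hc hib hi) hy'.1
  obtain ⟨hP', hQ'⟩ := same_signs h1 h2 hzero
  rw [← hP] at hP'
  rw [← hQ] at hQ'
  obtain ⟨Z, hZne, hZ1, hZ2, _, ⟨t, htP, htN⟩⟩ := crossing y' u (by
      intro i hi
      by_cases hib : i = b
      · rw [hib]; exact hub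
      · apply not_act _ hu.1
        intro hc
        rcases lt_or_gt_of_ne (hy0 i hc hib) with h' | h'
        · have := h2 i h'; linarith
        · have := h1 i h'; linarith) ⟨i0, by
      rcases lt_trichotomy (y i0) 0 with h' | h' | h'
      · have hu0 : 0 < u i0 := by
          by_contra hc
          have := mul_nonneg_of_nonpos_of_nonpos h'.le (not_lt.1 hc)
          linarith
        exact mul_neg_of_neg_of_pos (h2 i0 h') hu0
      · rw [h'] at hi0; simp at hi0
      · have hu0 : u i0 < 0 := by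
          by_contra hc
          have := mul_nonneg h'.le (not_lt.1 hc)
          linarith
        exact mul_neg_of_pos_of_neg (h1 i0 h') hu0⟩
  rw [hP', hQ'] at htP htN
  have hZu : ∀ i ∈ Z, u i ≠ 0 := by
    intro i hi hc
    have := hZ1 i hi
    rw [hc] at this; simp at this
  have hZact : ∀ i ∈ Z, i ∈ act U := fun i hi => mem_act.2 ⟨u, hu.1, hZu i hi⟩
  have hZBC : ∀ i ∈ Z, i ∉ B ∪ C := fun i hi hc => hZu i hi (hu.2 i hc)
  have hZb : ∀ i ∈ Z, i ≠ b := by
    intro i hi hc
    exact hZBC i hi (by rw [hc]; exact Finset.mem_union_left _ (Finset.mem_insert_self b _))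
  have hpar : ∀ i ∈ Z, ∀ j ∈ Z, ∀ w ∈ K U {b}, w i * u j = w j * u i := by
    intro i hi j hj
    by_contra hcon
    push Not at hcon
    obtain ⟨w, hw, hne⟩ := hcon
    apply h3 (i, j) (by
      simp only [Finset.mem_filter, Finset.mem_univ, true_and]
      exact ⟨w, hw, hne⟩)
    have := hZ2 i hi j hj
    simp only [LinearMap.sub_apply, LinearMap.smul_apply, LinearMap.proj_apply, smul_eq_mul]
    linarith
  have huniqP : ∀ i ∈ Z, i ∈ P → ∀ j ∈ Z, j ∈ P → i = j := fun i hi hiP j hj hjP =>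
    no_two hs hν hνb hiP hjP (hZu j hj) (hZact i hi) (hZact j hj) (hpar i hi j hj)
  have huniqQ : ∀ i ∈ Z, i ∈ Q → ∀ j ∈ Z, j ∈ Q → i = j := fun i hi hiP j hj hjP =>
    no_two hs hν' hν'b hiP hjP (hZu j hj) (hZact i hi) (hZact j hj) (hpar i hi j hj)
  -- elements of Z are not in the closure of the other side
  have hclP : ∀ j ∈ Z, j ∈ Q → kap U (insert j P) + 1 = kap U P := by
    intro j hj hjQ
    apply kap_insert_of_ne
    have h4 : j ∉ C := fun h => hZBC j hj (Finset.mem_union_right _ h)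
    have h5 : j ∈ act (K U P) ∪ act (K U Q) := by
      by_contra hc
      exact h4 (Finset.mem_sdiff.2 ⟨hZact j hj, hc⟩)
    rcases Finset.mem_union.1 h5 with h | h
    · obtain ⟨μ, hμ, h0⟩ := mem_act.1 h
      exact ⟨μ, hμ, h0⟩
    · exact absurd h (hKQact j hjQ)
  have hclQ : ∀ j ∈ Z, j ∈ P → kap U (insert j Q) + 1 = kap U Q := by
    intro j hj hjP
    apply kap_insert_of_ne
    have h4 : j ∉ C := fun h => hZBC j hj (Finset.mem_union_right _ h)
    have h5 : j ∈ act (K U P) ∪ act (K U Q) := by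
      by_contra hc
      exact h4 (Finset.mem_sdiff.2 ⟨hZact j hj, hc⟩)
    rcases Finset.mem_union.1 h5 with h | h
    · exact absurd h (hKPact j hjP)
    · obtain ⟨μ, hμ, h0⟩ := mem_act.1 h
      exact ⟨μ, hμ, h0⟩
  -- non-coloops
  have hncP : ∀ i ∈ Z, i ∈ P → ∀ S : Finset ι, P.erase i ⊆ S → K U S ≤ K U (P ∪ S) := by
    intro i hi hiP S hS μ hμ
    have h4 : i ∉ Bp := fun h => hZBC i hi
      (Finset.mem_union_left _ (Finset.mem_insert_of_mem (Finset.mem_union_left _ h)))
    have h5 : μ i = 0 := by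
      by_contra hc
      exact h4 (Finset.mem_filter.2 ⟨hiP, μ, K_anti U hS hμ, hc⟩)
    refine ⟨hμ.1, fun j hj => ?_⟩
    rcases Finset.mem_union.1 hj with hj | hj
    · by_cases hji : j = i
      · rw [hji]; exact h5
      · exact hμ.2 j (hS (Finset.mem_erase.2 ⟨hji, hj⟩))
    · exact hμ.2 j hj
  have hncQ : ∀ i ∈ Z, i ∈ Q → ∀ S : Finset ι, Q.erase i ⊆ S → K U S ≤ K U (Q ∪ S) := by
    intro i hi hiP S hS μ hμ
    have h4 : i ∉ Bq := fun h => hZBC i hi
      (Finset.mem_union_left _ (Finset.mem_insert_of_mem (Finset.mem_union_right _ h)))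
    have h5 : μ i = 0 := by
      by_contra hc
      exact h4 (Finset.mem_filter.2 ⟨hiP, μ, K_anti U hS hμ, hc⟩)
    refine ⟨hμ.1, fun j hj => ?_⟩
    rcases Finset.mem_union.1 hj with hj | hj
    · by_cases hji : j = i
      · rw [hji]; exact h5
      · exact hμ.2 j (hS (Finset.mem_erase.2 ⟨hji, hj⟩))
    · exact hμ.2 j hj
  have herP : ∀ i ∈ Z, i ∈ P → P.erase i ⊆ P \ Z := by
    intro i hi hiP j hj
    rw [Finset.mem_erase] at hj
    refine Finset.mem_sdiff.2 ⟨hj.2, fun hjZ => hj.1 (huniqP j hjZ hj.2 i hi hiP)⟩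
  have herQ : ∀ i ∈ Z, i ∈ Q → Q.erase i ⊆ Q \ Z := by
    intro i hi hiP j hj
    rw [Finset.mem_erase] at hj
    refine Finset.mem_sdiff.2 ⟨hj.2, fun hjZ => hj.1 (huniqQ j hjZ hj.2 i hi hiP)⟩
  have hy''U : y' + t • u ∈ U := U.add_mem hy'.1 (U.smul_mem t hu.1)
  have hy''b : (y' + t • u) b = 0 := by
    simp [hy'b, hub]
  have hy''0 : ∀ i ∈ act U, i ≠ b → (y' + t • u) i ≠ 0 := by
    intro i hi hib
    rcases hcov i hi with h | h | h
    · exact absurd h hib
    · by_cases hiZ : i ∈ Z
      · exact (mem_Neg.1 (by rw [htN]; simp [h, hiZ] : i ∈ Neg (y' + t • u))).ne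
      · exact (mem_Pos.1 (by rw [htP]; simp [h, hiZ] : i ∈ Pos (y' + t • u))).ne'
    · by_cases hiZ : i ∈ Z
      · exact (mem_Pos.1 (by rw [htP]; simp [h, hiZ] : i ∈ Pos (y' + t • u))).ne'
      · exact (mem_Neg.1 (by rw [htN]; simp [h, hiZ] : i ∈ Neg (y' + t • u))).ne
  obtain ⟨z, hz, hzb⟩ : ∃ z ∈ U, 0 < z b := by
    obtain ⟨μ, hμ, h0⟩ := mem_act.1 hb
    rcases lt_or_gt_of_ne h0 with h | h
    · exact ⟨-μ, U.neg_mem hμ, by simpa using h⟩
    · exact ⟨μ, hμ, h⟩
  have hL := leave_wall hmin hy''U hz hy''b hzb hy''0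
  have hL' := leave_wall' hmin hy''U hz hy''b hzb hy''0
  have hkbP := kap_insert_of_ne U P b ⟨ν, hν, hνb⟩
  have hkbQ := kap_insert_of_ne U Q b ⟨ν', hν', hν'b⟩
  by_cases hcaseP : ∃ i ∈ Z, i ∈ P
  · obtain ⟨i, hiZ, hiP⟩ := hcaseP
    have hi2 := hclQ i hiZ hiP
    by_cases hcaseQ : ∃ j ∈ Z, j ∈ Q
    · obtain ⟨j, hjZ, hjQ⟩ := hcaseQ
      have hj2 := hclP j hjZ hjQ
      have e1 : kap U (insert b (Pos (y' + t • u))) ≤ kap U (insert j P) := by
        refine (kap_anti U (Finset.subset_insert b _)).trans (kap_le_of_le ?_)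
        rw [htP]
        refine (hncP i hiZ hiP _ ((herP i hiZ hiP).trans Finset.subset_union_left)).trans
          (K_anti U ?_)
        intro x hx
        rcases Finset.mem_insert.1 hx with rfl | hx
        · exact Finset.mem_union_right _ (Finset.mem_union_right _
            (Finset.mem_inter.2 ⟨hjQ, hjZ⟩))
        · exact Finset.mem_union_left _ hx
      have e2 : kap U (Neg (y' + t • u)) ≤ kap U (insert i Q) := by
        refine kap_le_of_le ?_
        rw [htN]
        refine (hncQ j hjZ hjQ _ ((herQ j hjZ hjQ).trans Finset.subset_union_left)).trans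
          (K_anti U ?_)
        intro x hx
        rcases Finset.mem_insert.1 hx with rfl | hx
        · exact Finset.mem_union_right _ (Finset.mem_union_right _
            (Finset.mem_inter.2 ⟨hiP, hiZ⟩))
        · exact Finset.mem_union_left _ hx
      omega
    · have hQZ : Q \ Z = Q := by
        rw [Finset.sdiff_eq_self_iff_disjoint, Finset.disjoint_left]
        intro x hx hxZ
        exact hcaseQ ⟨x, hxZ, hx⟩
      have e1 : kap U (insert b (Pos (y' + t • u))) ≤ kap U (insert b P) := by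
        refine kap_le_of_le ?_
        rw [htP]
        refine (hncP i hiZ hiP _ ((herP i hiZ hiP).trans
          (Finset.subset_union_left.trans (Finset.subset_insert b _)))).trans (K_anti U ?_)
        intro x hx
        rcases Finset.mem_insert.1 hx with rfl | hx
        · exact Finset.mem_union_right _ (Finset.mem_insert_self x _)
        · exact Finset.mem_union_left _ hx
      have e2 : kap U (Neg (y' + t • u)) ≤ kap U (insert i Q) := by
        refine kap_anti U ?_
        rw [htN, hQZ]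
        intro x hx
        rcases Finset.mem_insert.1 hx with rfl | hx
        · exact Finset.mem_union_right _ (Finset.mem_inter.2 ⟨hiP, hiZ⟩)
        · exact Finset.mem_union_left _ hx
      omega
  · have hPZ : P \ Z = P := by
      rw [Finset.sdiff_eq_self_iff_disjoint, Finset.disjoint_left]
      intro x hx hxZ
      exact hcaseP ⟨x, hxZ, hx⟩
    obtain ⟨j, hjZ⟩ := hZne
    have hjQ : j ∈ Q := by
      rcases hcov j (hZact j hjZ) with h | h | h
      · exact absurd h (hZb j hjZ)
      · exact absurd ⟨j, hjZ, h⟩ hcaseP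
      · exact h
    have hj2 := hclP j hjZ hjQ
    have e1 : kap U (insert b (Neg (y' + t • u))) ≤ kap U (insert b Q) := by
      refine kap_le_of_le ?_
      rw [htN]
      refine (hncQ j hjZ hjQ _ ((herQ j hjZ hjQ).trans
        (Finset.subset_union_left.trans (Finset.subset_insert b _)))).trans (K_anti U ?_)
      intro x hx
      rcases Finset.mem_insert.1 hx with rfl | hx
      · exact Finset.mem_union_right _ (Finset.mem_insert_self x _)
      · exact Finset.mem_union_left _ hx
    have e2 : kap U (Pos (y' + t • u)) ≤ kap U (insert j P) := by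
      refine kap_anti U ?_
      rw [htP, hPZ]
      intro x hx
      rcases Finset.mem_insert.1 hx with rfl | hx
      · exact Finset.mem_union_right _ (Finset.mem_inter.2 ⟨hjQ, hjZ⟩)
      · exact Finset.mem_union_left _ hx
    omega

/-! ### Contraction of a coordinate -/

lemma finrank_K_singleton {U : Submodule ℝ (ι → ℝ)} {i : ι} (hi : i ∈ act U) :
    finrank ℝ (K U {i}) + 1 = finrank ℝ U := by
  obtain ⟨μ, hμ, h0⟩ := mem_act.1 hi
  exact kap_singleton_of_ne U i ⟨μ, hμ, h0⟩

lemma contract_aux {k : ℕ} {U : Submodule ℝ (ι → ℝ)} {i : ι} (hi : i ∈ act U)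
    {l' s : ι → ℝ} (hl' : l' ∈ K U {i}) (hs : s ∈ U) (hs0 : ∀ j ∈ act U, s j ≠ 0)
    (hsi : 0 < s i)
    (hk : kap (K U {i}) (Pos l') + kap (K U {i}) (Neg l') + (k + 1) ≤ finrank ℝ (K U {i})) :
    Good k U := by
  have hl'i : l' i = 0 := hl'.2 i (Finset.mem_singleton_self i)
  have hfr := finrank_K_singleton hi
  obtain ⟨ε, hε, h1, h2⟩ := nudge l' s
  have hiP : i ∈ Pos (l' + ε • s) := by
    rw [h1]
    refine Finset.mem_union_right _ (Finset.mem_sdiff.2 ⟨mem_Pos.2 hsi, ?_⟩)
    intro hc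
    have := mem_Neg.1 hc
    linarith
  have hPs : Pos l' ⊆ Pos (l' + ε • s) := by rw [h1]; exact Finset.subset_union_left
  have hNs : Neg l' ⊆ Neg (l' + ε • s) := by rw [h2]; exact Finset.subset_union_left
  refine ⟨l' + ε • s, U.add_mem hl'.1 (U.smul_mem ε hs), ?_, ?_⟩
  · intro j hj
    by_cases hj0 : l' j = 0
    · simp only [Pi.add_apply, Pi.smul_apply, smul_eq_mul, hj0, zero_add]
      exact mul_ne_zero hε.ne' (hs0 j hj)
    · rcases mem_Pos_or_Neg hj0 with h' | h'
      · exact (mem_Pos.1 (hPs h')).ne'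
      · exact (mem_Neg.1 (hNs h')).ne
  · have e1 : kap U (Pos (l' + ε • s)) ≤ kap (K U {i}) (Pos l') := by
      apply kap_le_of_le
      intro μ hμ
      refine ⟨⟨hμ.1, fun j hj => ?_⟩, fun j hj => hμ.2 j (hPs hj)⟩
      rw [Finset.mem_singleton.1 hj]
      exact hμ.2 i hiP
    have e2 : kap U (Neg (l' + ε • s)) ≤ kap (K U {i}) (Neg l') + 1 := by
      have e3 := kap_anti U hNs
      have e4 := kap_le_insert U (Neg l') i
      have e5 : kap U (insert i (Neg l')) ≤ kap (K U {i}) (Neg l') := by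
        apply kap_le_of_le
        intro μ hμ
        refine ⟨⟨hμ.1, fun j hj => ?_⟩, fun j hj => hμ.2 j (Finset.mem_insert_of_mem hj)⟩
        rw [Finset.mem_singleton.1 hj]
        exact hμ.2 i (Finset.mem_insert_self i _)
      omega
    omega

lemma contract {k : ℕ} {U : Submodule ℝ (ι → ℝ)} {i : ι} (hi : i ∈ act U)
    (h : Good k (K U {i})) : Good k U := by
  obtain ⟨l', hl', _, hk⟩ := h
  obtain ⟨s, hs, hs0⟩ := exists_nowhere_zero U
  rcases lt_or_gt_of_ne (hs0 i hi) with h | h
  · exact contract_aux hi hl' (U.neg_mem hs) (fun j hj => by simpa using hs0 j hj)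
      (by simpa using h) hk
  · exact contract_aux hi hl' hs hs0 h hk

/-! ### Uniform subspaces -/

lemma unif0 {k : ℕ} {U' : Submodule ℝ (ι → ℝ)} (hdim : finrank ℝ U' = k)
    (hcard : (act U').card = 2 * k + 1)
    (H1 : ∀ μ ∈ U', μ ≠ 0 → k + 2 ≤ (univ.filter (fun i => μ i ≠ 0)).card)
    {S : Finset ι} (hS : S ⊆ act U') (hSk : k ≤ S.card) {μ : ι → ℝ} (hμ : μ ∈ U')
    (hμS : ∀ j ∈ S, μ j = 0) : μ = 0 := by
  by_contra hne
  have h1 : 1 ≤ finrank ℝ (K U' S) := by
    rw [Nat.one_le_iff_ne_zero]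
    intro h0
    rw [Submodule.finrank_eq_zero] at h0
    have : μ ∈ K U' S := ⟨hμ, hμS⟩
    rw [h0] at this
    exact hne (by simpa using this)
  have h2 := card_act_ge H1 (K U' S) (K_le U' S) h1
  have h3 : act (K U' S) ⊆ act U' \ S := by
    intro j hj
    refine Finset.mem_sdiff.2 ⟨act_mono (K_le U' S) hj, ?_⟩
    intro hjS
    obtain ⟨ν, hν, h0⟩ := mem_act.1 hj
    exact h0 (hν.2 j hjS)
  have h4 := Finset.card_le_card h3
  rw [Finset.card_sdiff_of_subset hS] at h4
  omega

lemma unif1 {k : ℕ} {U' : Submodule ℝ (ι → ℝ)} (hdim : finrank ℝ U' = k)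
    (hcard : (act U').card = 2 * k + 1)
    (H1 : ∀ μ ∈ U', μ ≠ 0 → k + 2 ≤ (univ.filter (fun i => μ i ≠ 0)).card)
    {S : Finset ι} (hS : S ⊆ act U') (hSk : S.card < k) {b : ι} (hb : b ∈ act U')
    (hbS : b ∉ S) : ∃ μ ∈ K U' S, μ b ≠ 0 := by
  have h1 := finrank_le_kap_add_card U' S
  have h2 := card_act_ge H1 (K U' S) (K_le U' S) (by rw [← kap]; omega)
  rw [← kap] at h2
  have h3 : act (K U' S) ⊆ act U' \ S := by
    intro j hj
    refine Finset.mem_sdiff.2 ⟨act_mono (K_le U' S) hj, ?_⟩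
    intro hjS
    obtain ⟨ν, hν, h0⟩ := mem_act.1 hj
    exact h0 (hν.2 j hjS)
  have h4 : (act U' \ S).card = (act U').card - S.card := Finset.card_sdiff_of_subset hS
  have h5 : act (K U' S) = act U' \ S := by
    apply Finset.eq_of_subset_of_card_le h3
    omega
  have : b ∈ act (K U' S) := by
    rw [h5]; exact Finset.mem_sdiff.2 ⟨hb, hbS⟩
  obtain ⟨ν, hν, h0⟩ := mem_act.1 this
  exact ⟨ν, hν, h0⟩

/-- balanced wall -/
lemma balanced_wall {k : ℕ} (hk : 2 ≤ k) {U' : Submodule ℝ (ι → ℝ)} (hdim : finrank ℝ U' = k)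
    (hcard : (act U').card = 2 * k + 1)
    (H1 : ∀ μ ∈ U', μ ≠ 0 → k + 2 ≤ (univ.filter (fun i => μ i ≠ 0)).card) :
    ∃ y ∈ U', ∃ z ∈ act U', y z = 0 ∧ (∀ w ∈ act U', w ≠ z → y w ≠ 0) ∧
      (Pos y).card = k ∧ (Neg y).card = k := by
  classical
  -- cardinalities of nowhere zero elements
  have hcardPN : ∀ l ∈ U', (∀ w ∈ act U', l w ≠ 0) → (Pos l).card + (Neg l).card = 2 * k + 1 := by
    intro l hl hl0
    rw [← hcard, ← Finset.card_union_of_disjoint]
    · congr 1
      ext w
      rw [Finset.mem_union, mem_Pos, mem_Neg]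
      constructor
      · rintro (h | h)
        · exact mem_act.2 ⟨l, hl, h.ne'⟩
        · exact mem_act.2 ⟨l, hl, h.ne⟩
      · intro hw
        rcases lt_or_gt_of_ne (hl0 w hw) with h | h
        · exact Or.inr h
        · exact Or.inl h
    · rw [Finset.disjoint_left]
      intro i hi hi'
      have h1 := mem_Pos.1 hi
      have h2 := mem_Neg.1 hi'
      linarith
  -- target with few positive coordinates
  obtain ⟨s, hs, hs0, hsP⟩ : ∃ s ∈ U', (∀ w ∈ act U', s w ≠ 0) ∧ (Pos s).card ≤ k := by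
    obtain ⟨s, hs, hs0⟩ := exists_nowhere_zero U'
    by_cases h : (Pos s).card ≤ k
    · exact ⟨s, hs, hs0, h⟩
    · refine ⟨-s, U'.neg_mem hs, fun w hw => by simpa using hs0 w hw, ?_⟩
      rw [Pos_neg]
      have := hcardPN s hs hs0
      omega
  -- minimal number of disagreements
  have hexn : ∃ n, ∃ l ∈ U', (∀ w ∈ act U', l w ≠ 0) ∧ k + 1 ≤ (Pos l).card ∧
      (univ.filter (fun w => l w * s w < 0)).card = n := by
    refine ⟨_, -s, U'.neg_mem hs, fun w hw => by simpa using hs0 w hw, ?_, rfl⟩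
    rw [Pos_neg]
    have := hcardPN s hs hs0
    omega
  obtain ⟨l, hl, hl0, hlP, hln⟩ := Nat.find_spec hexn
  have hmin : ∀ l ∈ U', (∀ w ∈ act U', l w ≠ 0) → k + 1 ≤ (Pos l).card →
      Nat.find hexn ≤ (univ.filter (fun w => l w * s w < 0)).card :=
    fun l hl hl0 hlP => Nat.find_min' hexn ⟨l, hl, hl0, hlP, rfl⟩
  -- make l generic
  obtain ⟨l', hl', h1, h2, h3⟩ := perturb U' hl
    (univ.filter (fun p : ι × ι => p.1 ∈ act U' ∧ p.2 ∈ act U' ∧ p.1 ≠ p.2))
    (fun p => s p.2 • LinearMap.proj p.1 - s p.1 • LinearMap.proj p.2) (by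
      rintro ⟨a, b⟩ hp
      simp only [Finset.mem_filter, Finset.mem_univ, true_and] at hp
      obtain ⟨μ, hμ, h0⟩ := unif1 hdim hcard H1 (S := {a}) (by simpa using hp.1)
        (by rw [Finset.card_singleton]; omega) hp.2.1 (by simpa using hp.2.2.symm)
      refine ⟨μ, hμ.1, ?_⟩
      have hμa : μ a = 0 := hμ.2 a (Finset.mem_singleton_self a)
      simp only [LinearMap.sub_apply, LinearMap.smul_apply, LinearMap.proj_apply, smul_eq_mul,
        hμa, mul_zero, zero_sub]
      exact neg_ne_zero.2 (mul_ne_zero (hs0 a hp.1) h0))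
  have hz : ∀ i, l i = 0 → l' i = 0 := fun i hi => not_act (fun hc => hl0 i hc hi) hl'
  obtain ⟨hP, hNg⟩ := same_signs h1 h2 hz
  have hl'0 : ∀ i ∈ act U', l' i ≠ 0 := by
    intro i hi
    rcases lt_or_gt_of_ne (hl0 i hi) with h' | h'
    · exact (h2 i h').ne
    · exact (h1 i h').ne'
  have hdis : ∀ i, (l i * s i < 0 ↔ l' i * s i < 0) := by
    intro i
    rcases lt_trichotomy (l i) 0 with h | h | h
    · have h' := h2 i h
      rw [mul_neg_iff, mul_neg_iff]
      constructor
      · rintro (h4 | h4)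
        · linarith
        · exact Or.inr ⟨h', h4.2⟩
      · rintro (h4 | h4)
        · linarith
        · exact Or.inr ⟨h, h4.2⟩
    · rw [h, hz i h]
    · have h' := h1 i h
      rw [mul_neg_iff, mul_neg_iff]
      constructor
      · rintro (h4 | h4)
        · exact Or.inl ⟨h', h4.2⟩
        · linarith
      · rintro (h4 | h4)
        · exact Or.inl ⟨h, h4.2⟩
        · linarith
  have hdis' : (univ.filter (fun w => l' w * s w < 0)) = (univ.filter (fun w => l w * s w < 0)) := by
    ext w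
    simp only [Finset.mem_filter, Finset.mem_univ, true_and]
    exact (hdis w).symm
  -- there is a disagreement
  have hexd : ∃ i, l' i * s i < 0 := by
    by_contra hcon
    push Not at hcon
    have : Pos l' ⊆ Pos s := by
      intro i hi
      rw [mem_Pos] at hi ⊢
      have hia : i ∈ act U' := mem_act.2 ⟨l', hl', hi.ne'⟩
      rcases lt_or_gt_of_ne (hs0 i hia) with h | h
      · exfalso
        have := mul_neg_of_pos_of_neg hi h
        linarith [hcon i]
      · exact h
    have := Finset.card_le_card this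
    rw [hP] at this
    omega
  obtain ⟨Z, hZne, hZ1, hZ2, ⟨t0, ht0P, ht0N⟩, ⟨t, htP, htN⟩⟩ := crossing l' s
    (fun i hi => not_act (fun hc => hl'0 i hc hi) hs) hexd
  obtain ⟨b, hb⟩ := hZne
  have hsact : ∀ i, s i ≠ 0 → i ∈ act U' := fun i hi => mem_act.2 ⟨s, hs, hi⟩
  have hZs : ∀ i ∈ Z, s i ≠ 0 := by
    intro i hi hc
    have := hZ1 i hi
    rw [hc] at this; simp at this
  have hZb : Z = {b} := by
    apply Finset.eq_singleton_iff_unique_mem.2 ⟨hb, ?_⟩
    intro j hj
    by_contra hjb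
    apply h3 (j, b) (by simp [hsact j (hZs j hj), hsact b (hZs b hb), hjb])
    have h5 := hZ2 j hj b hb
    simp only [LinearMap.sub_apply, LinearMap.smul_apply, LinearMap.proj_apply, smul_eq_mul]
    linarith
  have hba : b ∈ act U' := hsact b (hZs b hb)
  rw [hZb] at ht0P ht0N htP htN
  -- after the crossing
  set l2 := l' + t • s with hl2
  have hl2U : l2 ∈ U' := U'.add_mem hl' (U'.smul_mem t hs)
  have hl20 : ∀ w ∈ act U', l2 w ≠ 0 := by
    intro w hw
    rcases mem_Pos_or_Neg (hl'0 w hw) with h | h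
    · by_cases hwb : w = b
      · refine (mem_Neg.1 (?_ : w ∈ Neg l2)).ne
        rw [htN]
        exact Finset.mem_union_right _ (Finset.mem_inter.2 ⟨h, by simp [hwb]⟩)
      · refine (mem_Pos.1 (?_ : w ∈ Pos l2)).ne'
        rw [htP]
        exact Finset.mem_union_left _ (Finset.mem_sdiff.2 ⟨h, by simp [hwb]⟩)
    · by_cases hwb : w = b
      · refine (mem_Pos.1 (?_ : w ∈ Pos l2)).ne'
        rw [htP]
        exact Finset.mem_union_right _ (Finset.mem_inter.2 ⟨h, by simp [hwb]⟩)
      · refine (mem_Neg.1 (?_ : w ∈ Neg l2)).ne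
        rw [htN]
        exact Finset.mem_union_left _ (Finset.mem_sdiff.2 ⟨h, by simp [hwb]⟩)
  have hdecr : (univ.filter (fun w => l2 w * s w < 0)) ⊆
      (univ.filter (fun w => l' w * s w < 0)).erase b := by
    intro w hw
    rw [Finset.mem_filter] at hw
    have hw2 := hw.2
    have hwa : w ∈ act U' := hsact w (by rintro hc; rw [hc] at hw2; simp at hw2)
    -- signs of l2 and l' agree at w ≠ b; at b the sign changed
    by_cases hwb : w = b
    · exfalso
      subst hwb
      have h4 := hZ1 w hb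
      rcases mem_Pos_or_Neg (hl'0 w hwa) with h | h
      · have h5 : l2 w < 0 := by
          refine mem_Neg.1 ?_
          rw [htN]
          exact Finset.mem_union_right _ (Finset.mem_inter.2 ⟨h, by simp⟩)
        have h6 := mem_Pos.1 h
        have h7 : s w < 0 := by
          by_contra hc
          have := mul_nonneg h6.le (not_lt.1 hc)
          linarith
        have := mul_pos_of_neg_of_neg h5 h7
        linarith
      · have h5 : 0 < l2 w := by
          refine mem_Pos.1 ?_
          rw [htP]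
          exact Finset.mem_union_right _ (Finset.mem_inter.2 ⟨h, by simp⟩)
        have h6 := mem_Neg.1 h
        have h7 : 0 < s w := by
          by_contra hc
          have := mul_nonneg_of_nonpos_of_nonpos h6.le (not_lt.1 hc)
          linarith
        have := mul_pos h5 h7
        linarith
    · refine Finset.mem_erase.2 ⟨hwb, ?_⟩
      simp only [Finset.mem_filter, Finset.mem_univ, true_and]
      rcases mem_Pos_or_Neg (hl'0 w hwa) with h | h
      · have h5 : 0 < l2 w := by
          refine mem_Pos.1 ?_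
          rw [htP]
          exact Finset.mem_union_left _ (Finset.mem_sdiff.2 ⟨h, by simp [hwb]⟩)
        have h7 : s w < 0 := by
          by_contra hc
          have := mul_nonneg h5.le (not_lt.1 hc)
          linarith
        exact mul_neg_of_pos_of_neg (mem_Pos.1 h) h7
      · have h5 : l2 w < 0 := by
          refine mem_Neg.1 ?_
          rw [htN]
          exact Finset.mem_union_left _ (Finset.mem_sdiff.2 ⟨h, by simp [hwb]⟩)
        have h7 : 0 < s w := by
          by_contra hc
          have := mul_nonneg_of_nonpos_of_nonpos h5.le (not_lt.1 hc)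
          linarith
        exact mul_neg_of_neg_of_pos (mem_Neg.1 h) h7
  have hbmem : b ∈ (univ.filter (fun w => l' w * s w < 0)) := by
    simp only [Finset.mem_filter, Finset.mem_univ, true_and]
    exact hZ1 b hb
  have hlt : (Pos l2).card ≤ k := by
    by_contra hc
    have h4 := hmin l2 hl2U hl20 (by omega)
    have h5 := Finset.card_le_card hdecr
    rw [Finset.card_erase_of_mem hbmem, hdis'] at h5
    have h6 : 1 ≤ (univ.filter (fun w => l w * s w < 0)).card := by
      rw [← hdis']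
      exact Finset.card_pos.2 ⟨b, hbmem⟩
    omega
  -- b was positive
  have hbP : b ∈ Pos l' := by
    by_contra hc
    have hbN : b ∈ Neg l' := by
      rcases mem_Pos_or_Neg (hl'0 b hba) with h | h
      · exact absurd h hc
      · exact h
    have h4 : Pos l' ⊆ Pos l2 := by
      rw [htP]
      intro w hw
      exact Finset.mem_union_left _ (Finset.mem_sdiff.2 ⟨hw, by
        rw [Finset.mem_singleton]; rintro rfl; exact hc hw⟩)
    have h5 := Finset.card_le_card h4
    rw [hP] at h5
    omega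
  have hbN : b ∉ Neg l' := by
    intro hc
    have := mem_Pos.1 hbP
    have := mem_Neg.1 hc
    linarith
  have hPl2 : Pos l2 = (Pos l').erase b := by
    rw [htP]
    ext w
    simp only [Finset.mem_union, Finset.mem_sdiff, Finset.mem_singleton, Finset.mem_inter,
      Finset.mem_erase]
    constructor
    · rintro (⟨h4, h5⟩ | ⟨h4, rfl⟩)
      · exact ⟨h5, h4⟩
      · exact absurd h4 hbN
    · rintro ⟨h4, h5⟩
      exact Or.inl ⟨h5, h4⟩
  have hc1 : (Pos l').card = k + 1 := by
    have h4 := Finset.card_erase_of_mem hbP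
    rw [← hPl2] at h4
    rw [hP] at h4 ⊢
    omega
  have hc2 : (Neg l').card = k := by
    have := hcardPN l' hl' hl'0
    omega
  refine ⟨l' + t0 • s, U'.add_mem hl' (U'.smul_mem t0 hs), b, hba, ?_, ?_, ?_, ?_⟩
  · by_contra hc
    rcases mem_Pos_or_Neg hc with h' | h'
    · rw [ht0P] at h'; simp at h'
    · rw [ht0N] at h'; simp at h'
  · intro w hw hwb
    rcases mem_Pos_or_Neg (hl'0 w hw) with h' | h'
    · exact (mem_Pos.1 (by rw [ht0P]; simp [h', hwb] : w ∈ Pos (l' + t0 • s))).ne'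
    · exact (mem_Neg.1 (by rw [ht0N]; simp [h', hwb] : w ∈ Neg (l' + t0 • s))).ne
  · rw [ht0P, Finset.sdiff_singleton_eq_erase, Finset.card_erase_of_mem hbP]
    omega
  · rw [ht0N, Finset.sdiff_singleton_eq_erase, Finset.erase_eq_of_notMem hbN]
    exact hc2

end MPa0e17f
end

section
open Finset Module

set_option linter.unusedSectionVars false
set_option linter.unusedFintypeInType false
set_option linter.unusedDecidableInType false

namespace MPa0e17f

variable {ι : Type*} [Fintype ι] [DecidableEq ι]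

/-! ### The parallel case -/

lemma finish {k : ℕ} {U : Submodule ℝ (ι → ℝ)} {y s : ι → ℝ} (hy : y ∈ U) (hs : s ∈ U)
    (h0 : ∀ w ∈ act U, y w = 0 → s w ≠ 0) {A B : Finset ι}
    (hA : ∀ w ∈ A, 0 < y w ∨ (y w = 0 ∧ 0 < s w)) (hB : ∀ w ∈ B, y w < 0 ∨ (y w = 0 ∧ s w < 0))
    (hk : kap U A + kap U B + (k + 1) ≤ finrank ℝ U) : Good k U := by
  obtain ⟨ε, hε, h1, h2⟩ := nudge y s
  have hA' : A ⊆ Pos (y + ε • s) := by
    intro w hw
    rw [h1]
    rcases hA w hw with h | ⟨h, h'⟩
    · exact Finset.mem_union_left _ (mem_Pos.2 h)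
    · refine Finset.mem_union_right _ (Finset.mem_sdiff.2 ⟨mem_Pos.2 h', ?_⟩)
      intro hc
      have := mem_Neg.1 hc
      linarith
  have hB' : B ⊆ Neg (y + ε • s) := by
    intro w hw
    rw [h2]
    rcases hB w hw with h | ⟨h, h'⟩
    · exact Finset.mem_union_left _ (mem_Neg.2 h)
    · refine Finset.mem_union_right _ (Finset.mem_sdiff.2 ⟨mem_Neg.2 h', ?_⟩)
      intro hc
      have := mem_Pos.1 hc
      linarith
  refine ⟨y + ε • s, U.add_mem hy (U.smul_mem ε hs), ?_, ?_⟩
  · intro w hw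
    by_cases hw0 : y w = 0
    · simp only [Pi.add_apply, Pi.smul_apply, smul_eq_mul, hw0, zero_add]
      exact mul_ne_zero hε.ne' (h0 w hw hw0)
    · rcases mem_Pos_or_Neg hw0 with h' | h'
      · exact (mem_Pos.1 (by rw [h1]; exact Finset.mem_union_left _ h')).ne'
      · exact (mem_Neg.1 (by rw [h2]; exact Finset.mem_union_left _ h')).ne
  · have := kap_anti U hA'
    have := kap_anti U hB'
    omega

lemma two_values {U : Submodule ℝ (ι → ℝ)} {i a : ι} (hi : i ∈ act U) (ha : a ∈ act (K U {i}))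
    (σ τ : ℝ) : ∃ s ∈ U, s a = σ ∧ s i = τ := by
  obtain ⟨s0, hs0, h0⟩ := mem_act.1 hi
  obtain ⟨μ, hμ, h1⟩ := mem_act.1 ha
  have hμi : μ i = 0 := hμ.2 i (Finset.mem_singleton_self i)
  refine ⟨(τ / s0 i) • s0 + ((σ - (τ / s0 i) * s0 a) / μ a) • μ,
    U.add_mem (U.smul_mem _ hs0) (U.smul_mem _ hμ.1), ?_, ?_⟩
  · simp only [Pi.add_apply, Pi.smul_apply, smul_eq_mul]
    field_simp
    ring
  · simp only [Pi.add_apply, Pi.smul_apply, smul_eq_mul, hμi, mul_zero, add_zero]
    field_simp

/-- data of the parallel case -/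
structure Par (k : ℕ) (U : Submodule ℝ (ι → ℝ)) (i j : ι) : Prop where
  hk : 2 ≤ k
  hm : finrank ℝ U = k + 1
  H1 : ∀ μ ∈ U, μ ≠ 0 → k + 2 ≤ (univ.filter (fun i => μ i ≠ 0)).card
  H2 : ∀ μ ∈ U, μ ≠ 0 → ∃ i, μ i < 0
  hi : i ∈ act U
  hj0 : ∀ μ ∈ U, μ i = 0 → μ j = 0
  hdim : finrank ℝ (K U {i}) = k
  hcard : (act (K U {i})).card = 2 * k + 1
  hact : ∀ w ∈ act U, w ∈ act (K U {i}) ∨ w = i ∨ w = j

lemma Par.H1' {k : ℕ} {U : Submodule ℝ (ι → ℝ)} {i j : ι} (h : Par k U i j) :
    ∀ μ ∈ K U {i}, μ ≠ 0 → k + 2 ≤ (univ.filter (fun i => μ i ≠ 0)).card :=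
  fun μ hμ => h.H1 μ hμ.1

lemma Par.K_of_i {k : ℕ} {U : Submodule ℝ (ι → ℝ)} {i j : ι} (h : Par k U i j) {A : Finset ι}
    (hiA : i ∈ A) {B : Finset ι} (hB : B ⊆ act (K U {i})) (hBA : B ⊆ A) (hBk : k ≤ B.card) :
    kap U A = 0 := by
  rw [kap, Submodule.finrank_eq_zero, eq_bot_iff]
  intro μ hμ
  have : μ ∈ K U {i} := ⟨hμ.1, fun x hx => by
    rw [Finset.mem_singleton.1 hx]; exact hμ.2 i hiA⟩
  exact unif0 h.hdim h.hcard h.H1' hB hBk this (fun x hx => hμ.2 x (hBA hx))

/-- if some `h` spans `K U B` modulo `i`, it is killed by one more element -/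
lemma Par.K_zero {k : ℕ} {U : Submodule ℝ (ι → ℝ)} {i j : ι} (h : Par k U i j) {A : Finset ι}
    {B : Finset ι} (hB : B ⊆ act (K U {i})) (hBA : B ⊆ A) (hBk : k ≤ B.card)
    {g : ι → ℝ} (hg : g ∈ U) (hgB : ∀ b ∈ B, g b = 0) (hgi : g i ≠ 0) {x : ι} (hx : x ∈ A)
    (hgx : g x ≠ 0) : kap U A = 0 := by
  rw [kap, Submodule.finrank_eq_zero, eq_bot_iff]
  intro μ hμ
  have h1 : μ - (μ i / g i) • g = 0 := by
    have : μ - (μ i / g i) • g ∈ K U {i} := by
      refine ⟨U.sub_mem hμ.1 (U.smul_mem _ hg), fun x hx => ?_⟩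
      rw [Finset.mem_singleton.1 hx]
      simp only [Pi.sub_apply, Pi.smul_apply, smul_eq_mul]
      field_simp
      ring
    refine unif0 h.hdim h.hcard h.H1' hB hBk this (fun b hb => ?_)
    simp only [Pi.sub_apply, Pi.smul_apply, smul_eq_mul, hgB b hb, hμ.2 b (hBA hb), mul_zero,
      sub_zero]
  have h2 := congrFun h1 x
  simp only [Pi.sub_apply, Pi.smul_apply, smul_eq_mul, hμ.2 x hx, Pi.zero_apply, zero_sub,
    neg_eq_zero, mul_eq_zero, div_eq_zero_iff, hgi, hgx, or_false] at h2
  rw [h2] at h1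
  simp only [zero_div, zero_smul, sub_zero] at h1
  rw [h1]
  exact Submodule.zero_mem _

lemma Pos_subset_act {U : Submodule ℝ (ι → ℝ)} {y : ι → ℝ} (hy : y ∈ U) : Pos y ⊆ act U :=
  fun _ hw => mem_act.2 ⟨y, hy, (mem_Pos.1 hw).ne'⟩

lemma Neg_subset_act {U : Submodule ℝ (ι → ℝ)} {y : ι → ℝ} (hy : y ∈ U) : Neg y ⊆ act U :=
  fun _ hw => mem_act.2 ⟨y, hy, (mem_Neg.1 hw).ne⟩

lemma par_aux1 {k : ℕ} {U : Submodule ℝ (ι → ℝ)} {i j : ι} (h : Par k U i j)
    (hpos : ∀ μ ∈ U, μ i < 0 → μ j < 0)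
    {y : ι → ℝ} (hy : y ∈ K U {i}) {z : ι} (hz : z ∈ act (K U {i})) (hyz : y z = 0)
    (hy0 : ∀ w ∈ act (K U {i}), w ≠ z → y w ≠ 0) (hP : (Pos y).card = k)
    (hQ : (Neg y).card = k) :
    Good k U ∨ ∃ g ∈ U, (∀ x ∈ Pos y, g x = 0) ∧ g z = 0 ∧ g i ≠ 0 ∧ ∀ q ∈ Neg y, g q ≠ 0 := by
  have hyi : y i = 0 := hy.2 i (Finset.mem_singleton_self i)
  have h1 := finrank_le_kap_add_card U (Pos y)
  have h2 : K U (Pos y) ≠ ⊥ := by
    intro hc
    rw [kap, hc] at h1
    have := h.hm
    simp at h1
    omega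
  obtain ⟨g, hg, hg0⟩ := Submodule.exists_mem_ne_zero_of_ne_bot h2
  have hgi : g i ≠ 0 := by
    intro hc
    apply hg0
    exact unif0 h.hdim h.hcard h.H1' (Pos_subset_act hy) hP.ge
      ⟨hg.1, fun x hx => by rw [Finset.mem_singleton.1 hx]; exact hc⟩ hg.2
  by_cases hgz : g z = 0
  · right
    refine ⟨g, hg.1, hg.2, hgz, hgi, ?_⟩
    by_contra hcon
    push Not at hcon
    obtain ⟨q, hq, hq0⟩ := hcon
    have h3 := h.H1 g hg.1 hg0
    have h4 : univ.filter (fun w => g w ≠ 0) ⊆ insert i (insert j ((Neg y).erase q)) := by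
      intro w hw
      rw [Finset.mem_filter] at hw
      have hw2 := hw.2
      rcases h.hact w (mem_act.2 ⟨g, hg.1, hw2⟩) with h5 | h5 | h5
      · refine Finset.mem_insert_of_mem (Finset.mem_insert_of_mem (Finset.mem_erase.2 ⟨?_, ?_⟩))
        · rintro rfl; exact hw2 hq0
        · have hwz : w ≠ z := by rintro rfl; exact hw2 hgz
          rcases mem_Pos_or_Neg (hy0 w h5 hwz) with h6 | h6
          · exact absurd (hg.2 w h6) hw2
          · exact h6
      · rw [h5]; exact Finset.mem_insert_self _ _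
      · rw [h5]; exact Finset.mem_insert_of_mem (Finset.mem_insert_self _ _)
    have h5 := Finset.card_le_card h4
    have h6 := Finset.card_insert_le i (insert j ((Neg y).erase q))
    have h7 := Finset.card_insert_le j ((Neg y).erase q)
    have h8 := Finset.card_erase_of_mem hq
    have := h.hk
    omega
  · left
    obtain ⟨s, hs, hsz, hsi⟩ := two_values h.hi hz 1 (-1)
    have hsi' : s i < 0 := by rw [hsi]; norm_num
    refine finish (y := y) (s := s) hy.1 hs ?_ (A := insert z (Pos y)) (B := insert i (Neg y))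
      ?_ ?_ ?_
    · intro w hw hw0
      rcases h.hact w hw with h5 | h5 | h5
      · by_cases hwz : w = z
        · rw [hwz, hsz]; norm_num
        · exact absurd hw0 (hy0 w h5 hwz)
      · rw [h5]; exact hsi'.ne
      · rw [h5]; exact (hpos s hs hsi').ne
    · intro w hw
      rcases Finset.mem_insert.1 hw with rfl | hw
      · right; exact ⟨hyz, by rw [hsz]; norm_num⟩
      · left; exact mem_Pos.1 hw
    · intro w hw
      rcases Finset.mem_insert.1 hw with rfl | hw
      · right; exact ⟨hyi, hsi'⟩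
      · left; exact mem_Neg.1 hw
    · rw [h.K_of_i (Finset.mem_insert_self i _) (Neg_subset_act hy) (Finset.subset_insert _ _)
          hQ.ge,
        h.K_zero (A := insert z (Pos y)) (Pos_subset_act hy) (Finset.subset_insert _ _) hP.ge
          hg.1 hg.2 hgi (Finset.mem_insert_self _ _) hgz, h.hm]
      omega

lemma par_aux2 {k : ℕ} {U : Submodule ℝ (ι → ℝ)} {i j : ι} (h : Par k U i j)
    (hpos : ∀ μ ∈ U, 0 < μ i → 0 < μ j)
    {y : ι → ℝ} (hy : y ∈ K U {i}) {z : ι} (hz : z ∈ act (K U {i})) (hyz : y z = 0)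
    (hy0 : ∀ w ∈ act (K U {i}), w ≠ z → y w ≠ 0) (hP : (Pos y).card = k)
    (hQ : (Neg y).card = k) {g : ι → ℝ} (hg : g ∈ U) (hgQ : ∀ x ∈ Neg y, g x = 0)
    (hgi : g i ≠ 0) (hgP : ∀ x ∈ Pos y, g x ≠ 0) {y' : ι → ℝ} (hy' : y' ∈ K U {i})
    (hy'z : y' z = 0) {x : ι} (hx : x ∈ Pos y) (hP' : Pos y' = (Pos y).erase x)
    (hN' : Neg y' = insert x (Neg y)) : Good k U := by
  have hyi : y i = 0 := hy.2 i (Finset.mem_singleton_self i)
  have hyi' : y' i = 0 := hy'.2 i (Finset.mem_singleton_self i)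
  obtain ⟨s, hs, hsz, hsi⟩ := two_values h.hi hz 1 1
  have hsi' : 0 < s i := by rw [hsi]; norm_num
  have hzP : z ∉ (Pos y).erase x := by
    intro hc
    have := mem_Pos.1 (Finset.mem_of_mem_erase hc)
    linarith
  refine finish (y := y') (s := s) hy'.1 hs ?_ (A := insert i (insert z ((Pos y).erase x)))
    (B := insert x (Neg y)) ?_ ?_ ?_
  · intro w hw hw0
    rcases h.hact w hw with h5 | h5 | h5
    · by_cases hwz : w = z
      · rw [hwz, hsz]; norm_num
      · exfalso
        rcases mem_Pos_or_Neg (hy0 w h5 hwz) with h6 | h6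
        · by_cases hwx : w = x
          · have : w ∈ Neg y' := by rw [hN', hwx]; exact Finset.mem_insert_self _ _
            have := mem_Neg.1 this
            linarith
          · have : w ∈ Pos y' := by rw [hP']; exact Finset.mem_erase.2 ⟨hwx, h6⟩
            have := mem_Pos.1 this
            linarith
        · have : w ∈ Neg y' := by rw [hN']; exact Finset.mem_insert_of_mem h6
          have := mem_Neg.1 this
          linarith
    · rw [h5]; exact hsi'.ne'
    · rw [h5]; exact (hpos s hs hsi').ne'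
  · intro w hw
    rcases Finset.mem_insert.1 hw with rfl | hw
    · right; exact ⟨hyi', hsi'⟩
    rcases Finset.mem_insert.1 hw with rfl | hw
    · right; exact ⟨hy'z, by rw [hsz]; norm_num⟩
    · left; rw [← hP'] at hw; exact mem_Pos.1 hw
  · intro w hw
    left; rw [← hN'] at hw; exact mem_Neg.1 hw
  · have h9 : insert z ((Pos y).erase x) ⊆ act (K U {i}) := by
      intro w hw
      rcases Finset.mem_insert.1 hw with rfl | hw
      · exact hz
      · exact Pos_subset_act hy (Finset.mem_of_mem_erase hw)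
    have h10 : k ≤ (insert z ((Pos y).erase x)).card := by
      rw [Finset.card_insert_of_notMem hzP, Finset.card_erase_of_mem hx]
      have := h.hk
      omega
    rw [h.K_of_i (Finset.mem_insert_self i _) h9 (Finset.subset_insert _ _) h10,
      h.K_zero (A := insert x (Neg y)) (Neg_subset_act hy) (Finset.subset_insert _ _) hQ.ge
        hg hgQ hgi (Finset.mem_insert_self _ _) (hgP x hx), h.hm]
    omega

lemma neg_balanced {U : Submodule ℝ (ι → ℝ)} {y : ι → ℝ} {z : ι}
    (hy0 : ∀ w ∈ act U, w ≠ z → y w ≠ 0) : ∀ w ∈ act U, w ≠ z → (-y) w ≠ 0 :=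
  fun w hw hwz => by simpa using hy0 w hw hwz

lemma par_k3 {k : ℕ} {U : Submodule ℝ (ι → ℝ)} {i j : ι} (h : Par k U i j)
    (hpos : ∀ μ ∈ U, 0 < μ i → 0 < μ j) (hneg : ∀ μ ∈ U, μ i < 0 → μ j < 0) (hk3 : 3 ≤ k) :
    Good k U := by
  classical
  obtain ⟨y0, hy0U, z, hz, hy0z, hy00, hP0, hQ0⟩ := balanced_wall h.hk h.hdim h.hcard h.H1'
  have hU'z : ∀ {A : Finset ι}, K (K U {i}) ({z} ∪ A) ≤ K (K U {i}) {z} := by
    intro A
    exact K_anti _ Finset.subset_union_left
  obtain ⟨u0, hu0, hu00⟩ := exists_generic (K (K U {i}) {z}) ((act (K U {i})).erase z)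
    (fun w => LinearMap.proj w) (by
      intro b hb
      obtain ⟨μ, hμ, h0⟩ := unif1 h.hdim h.hcard h.H1' (S := {z}) (by simpa using hz)
        (by rw [Finset.card_singleton]; omega) (Finset.mem_of_mem_erase hb)
        (by simpa using Finset.ne_of_mem_erase hb)
      exact ⟨μ, hμ, h0⟩)
  -- choose the sign of u
  obtain ⟨u, hu, hu0, w0, hw0⟩ : ∃ u ∈ K (K U {i}) {z}, (∀ w ∈ act (K U {i}), w ≠ z → u w ≠ 0) ∧
      ∃ w, y0 w * u w < 0 := by
    have hu1 : ∀ w ∈ act (K U {i}), w ≠ z → u0 w ≠ 0 :=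
      fun w hw hwz => hu00 w (Finset.mem_erase.2 ⟨hwz, hw⟩)
    by_cases hex : ∃ w, y0 w * u0 w < 0
    · exact ⟨u0, hu0, hu1, hex⟩
    · push Not at hex
      obtain ⟨w, hw⟩ : (Pos y0).Nonempty := by
        rw [← Finset.card_pos]; omega
      refine ⟨-u0, Submodule.neg_mem _ hu0, neg_balanced hu1, w, ?_⟩
      have hwz : w ≠ z := by
        rintro rfl
        have := mem_Pos.1 hw
        linarith
      have h1 := hu1 w (Pos_subset_act hy0U hw) hwz
      have h2 := hex w
      have h3 := mem_Pos.1 hw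
      have h4 : y0 w * u0 w ≠ 0 := mul_ne_zero h3.ne' h1
      have h5 : 0 < y0 w * u0 w := lt_of_le_of_ne h2 h4.symm
      simp only [Pi.neg_apply]
      linarith
  -- make y generic
  obtain ⟨y, hy, h1, h2, h3⟩ := perturb (K (K U {i}) {z}) (y := y0)
    ⟨hy0U, fun x hx => by rw [Finset.mem_singleton.1 hx]; exact hy0z⟩
    (univ.filter (fun p : ι × ι => p.1 ∈ (act (K U {i})).erase z ∧
      p.2 ∈ (act (K U {i})).erase z ∧ p.1 ≠ p.2))
    (fun p => u p.2 • LinearMap.proj p.1 - u p.1 • LinearMap.proj p.2) (by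
      rintro ⟨a, b⟩ hp
      simp only [Finset.mem_filter, Finset.mem_univ, true_and, Finset.mem_erase] at hp
      obtain ⟨⟨haz, ha⟩, ⟨hbz, hb⟩, hab⟩ := hp
      obtain ⟨μ, hμ, h0⟩ := unif1 h.hdim h.hcard h.H1' (S := {z, a}) (by
          intro x hx
          rcases Finset.mem_insert.1 hx with rfl | hx
          · exact hz
          · rw [Finset.mem_singleton.1 hx]; exact ha)
        (by have := Finset.card_le_two (a := z) (b := a); omega) hb
        (by simp only [Finset.mem_insert, Finset.mem_singleton, not_or]; exact ⟨hbz, hab.symm⟩)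
      refine ⟨μ, K_anti _ (by simp) hμ, ?_⟩
      have hμa : μ a = 0 := hμ.2 a (by simp)
      simp only [LinearMap.sub_apply, LinearMap.smul_apply, LinearMap.proj_apply, smul_eq_mul,
        hμa, mul_zero, zero_sub]
      exact neg_ne_zero.2 (mul_ne_zero (hu0 a ha haz) h0))
  have hyz : y z = 0 := hy.2 z (Finset.mem_singleton_self z)
  have huz : u z = 0 := hu.2 z (Finset.mem_singleton_self z)
  have hyU : y ∈ K U {i} := hy.1
  have hzero : ∀ w, y0 w = 0 → y w = 0 := by
    intro w hw
    by_cases hwa : w ∈ act (K U {i})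
    · by_cases hwz : w = z
      · rw [hwz]; exact hyz
      · exact absurd hw (hy00 w hwa hwz)
    · exact not_act hwa hyU
  obtain ⟨hPe, hNe⟩ := same_signs h1 h2 hzero
  have hyne : ∀ w ∈ act (K U {i}), w ≠ z → y w ≠ 0 := by
    intro w hw hwz
    rcases mem_Pos_or_Neg (hy00 w hw hwz) with h' | h'
    · exact (h1 w (mem_Pos.1 h')).ne'
    · exact (h2 w (mem_Neg.1 h')).ne
  have hP : (Pos y).card = k := by rw [hPe]; exact hP0
  have hQ : (Neg y).card = k := by rw [hNe]; exact hQ0
  -- the two auxiliary vectors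
  rcases par_aux1 h hneg hyU hz hyz hyne hP hQ with hg | ⟨g1, hg1, hg1P, hg1z, hg1i, hg1Q⟩
  · exact hg
  rcases par_aux1 h hneg (y := -y) (Submodule.neg_mem _ hyU) hz (by simp [hyz])
    (neg_balanced hyne) (by rw [Pos_neg]; exact hQ) (by rw [Neg_neg]; exact hP) with
    hg | ⟨g2, hg2, hg2Q, hg2z, hg2i, hg2P⟩
  · exact hg
  rw [Pos_neg] at hg2Q
  rw [Neg_neg] at hg2P
  obtain ⟨Z, hZne, hZ1, hZ2, -, ⟨t, htP, htN⟩⟩ := crossing y u (by
      intro w hw
      by_cases hwa : w ∈ act (K U {i})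
      · by_cases hwz : w = z
        · rw [hwz]; exact huz
        · exact absurd hw (hyne w hwa hwz)
      · exact not_act hwa hu.1)
    ⟨w0, by
      rcases lt_trichotomy (y0 w0) 0 with h' | h' | h'
      · have h4 := h2 w0 h'
        have h5 : 0 < u w0 := by
          by_contra hc
          have := mul_nonneg_of_nonpos_of_nonpos h'.le (not_lt.1 hc)
          linarith
        exact mul_neg_of_neg_of_pos h4 h5
      · rw [h'] at hw0; simp at hw0
      · have h4 := h1 w0 h'
        have h5 : u w0 < 0 := by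
          by_contra hc
          have := mul_nonneg h'.le (not_lt.1 hc)
          linarith
        exact mul_neg_of_pos_of_neg h4 h5⟩
  obtain ⟨x, hx⟩ := hZne
  have hyact : ∀ w, y w ≠ 0 → w ∈ (act (K U {i})).erase z := fun w hw =>
    Finset.mem_erase.2 ⟨by rintro rfl; exact hw hyz, mem_act.2 ⟨y, hyU, hw⟩⟩
  have hZy : ∀ w ∈ Z, y w ≠ 0 := by
    intro w hw hc
    have := hZ1 w hw
    rw [hc] at this; simp at this
  have hZx : Z = {x} := by
    apply Finset.eq_singleton_iff_unique_mem.2 ⟨hx, ?_⟩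
    intro b hb
    by_contra hbx
    apply h3 (b, x) (by
      simp only [Finset.mem_filter, Finset.mem_univ, true_and]
      exact ⟨hyact b (hZy b hb), hyact x (hZy x hx), hbx⟩)
    have h5 := hZ2 b hb x hx
    simp only [LinearMap.sub_apply, LinearMap.smul_apply, LinearMap.proj_apply, smul_eq_mul]
    linarith
  rw [hZx] at htP htN
  have hyt : y + t • u ∈ K U {i} := Submodule.add_mem _ hyU (Submodule.smul_mem _ t hu.1)
  have hytz : (y + t • u) z = 0 := by simp [hyz, huz]
  rcases mem_Pos_or_Neg (hZy x hx) with hxP | hxQ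
  · have hxQ : x ∉ Neg y := by
      intro hc
      have := mem_Pos.1 hxP
      have := mem_Neg.1 hc
      linarith
    refine par_aux2 h hpos hyU hz hyz hyne hP hQ hg2 hg2Q hg2i hg2P hyt hytz hxP ?_ ?_
    · rw [htP, Finset.inter_singleton_of_notMem hxQ, Finset.union_empty,
        Finset.sdiff_singleton_eq_erase]
    · rw [htN, Finset.inter_singleton_of_mem hxP, Finset.sdiff_singleton_eq_erase,
        Finset.erase_eq_of_notMem hxQ, Finset.union_comm]
      rfl
  · have hxP : x ∉ Pos y := by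
      intro hc
      have := mem_Pos.1 hc
      have := mem_Neg.1 hxQ
      linarith
    refine par_aux2 (y := -y) (y' := -(y + t • u)) h hpos (Submodule.neg_mem _ hyU) hz
      (by simp [hyz]) (neg_balanced hyne) (by rw [Pos_neg]; exact hQ) (by rw [Neg_neg]; exact hP)
      hg1 (by rw [Neg_neg]; exact hg1P) hg1i (by rw [Pos_neg]; exact hg1Q)
      (Submodule.neg_mem _ hyt) (by rw [Pi.neg_apply, hytz, neg_zero]) (x := x)
      (by rw [Pos_neg]; exact hxQ) ?_ ?_
    · rw [Pos_neg, Pos_neg, htN, Finset.inter_singleton_of_notMem hxP, Finset.union_empty,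
        Finset.sdiff_singleton_eq_erase]
    · rw [Neg_neg, Neg_neg, htP, Finset.inter_singleton_of_mem hxQ,
        Finset.sdiff_singleton_eq_erase, Finset.erase_eq_of_notMem hxP, Finset.union_comm]
      rfl

lemma par_k2_aux {U : Submodule ℝ (ι → ℝ)} {i j : ι} (h : Par 2 U i j)
    (hpos : ∀ μ ∈ U, 0 < μ i → 0 < μ j) (hneg : ∀ μ ∈ U, μ i < 0 → μ j < 0)
    {z x1 x2 q1 q2 : ι} (hact : act (K U {i}) = {z, x1, x2, q1, q2})
    (hzx2 : z ≠ x2) (hx1x2 : x1 ≠ x2) (hx1q1 : x1 ≠ q1) (hq12 : q1 ≠ q2)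
    {g1 g2 : ι → ℝ} (hg1 : g1 ∈ U) (hg1z : g1 z = 0) (hg1x : g1 x2 = 0) (hg1i : g1 i ≠ 0)
    (hg1q : g1 q2 ≠ 0)
    (hg2 : g2 ∈ U) (hg2q1 : g2 q1 = 0) (hg2q2 : g2 q2 = 0) (hg2i : g2 i ≠ 0)
    (hg2x : g2 x1 ≠ 0) {l : ι → ℝ} (hl : l ∈ K U {i}) (hlz : 0 < l z) (hlx1 : l x1 = 0)
    (hlx2 : 0 < l x2) (hlq1 : l q1 < 0) (hlq2 : l q2 ≠ 0) : Good 2 U := by
  have hli : l i = 0 := hl.2 i (Finset.mem_singleton_self i)
  have hx1a : x1 ∈ act (K U {i}) := by rw [hact]; simp
  have hza : z ∈ act (K U {i}) := by rw [hact]; simp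
  have hx2a : x2 ∈ act (K U {i}) := by rw [hact]; simp
  have hq1a : q1 ∈ act (K U {i}) := by rw [hact]; simp
  have hq2a : q2 ∈ act (K U {i}) := by rw [hact]; simp
  have hpair : ∀ {a b : ι}, a ∈ act (K U {i}) → b ∈ act (K U {i}) →
      ({a, b} : Finset ι) ⊆ act (K U {i}) := by
    intro a b ha hb x hx
    rcases Finset.mem_insert.1 hx with rfl | hx
    · exact ha
    · rw [Finset.mem_singleton.1 hx]; exact hb
  rcases lt_or_gt_of_ne hlq2 with hq2 | hq2
  · obtain ⟨s, hs, hsx, hsi⟩ := two_values h.hi hx1a (-1) 1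
    have hsi' : 0 < s i := by rw [hsi]; norm_num
    refine finish (y := l) (s := s) hl.1 hs ?_ (A := {i, z, x2}) (B := {x1, q1, q2}) ?_ ?_ ?_
    · intro w hw hw0
      rcases h.hact w hw with h5 | h5 | h5
      · rw [hact] at h5
        simp only [Finset.mem_insert, Finset.mem_singleton] at h5
        rcases h5 with rfl | rfl | rfl | rfl | rfl
        · exact absurd hw0 hlz.ne'
        · rw [hsx]; norm_num
        · exact absurd hw0 hlx2.ne'
        · exact absurd hw0 hlq1.ne
        · exact absurd hw0 hlq2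
      · rw [h5]; exact hsi'.ne'
      · rw [h5]; exact (hpos s hs hsi').ne'
    · intro w hw
      simp only [Finset.mem_insert, Finset.mem_singleton] at hw
      rcases hw with rfl | rfl | rfl
      · exact Or.inr ⟨hli, hsi'⟩
      · exact Or.inl hlz
      · exact Or.inl hlx2
    · intro w hw
      simp only [Finset.mem_insert, Finset.mem_singleton] at hw
      rcases hw with rfl | rfl | rfl
      · exact Or.inr ⟨hlx1, by rw [hsx]; norm_num⟩
      · exact Or.inl hlq1
      · exact Or.inl hq2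
    · rw [h.K_of_i (A := {i, z, x2}) (B := {z, x2}) (by simp) (hpair hza hx2a)
          (Finset.subset_insert _ _) (by rw [Finset.card_pair hzx2]),
        h.K_zero (A := {x1, q1, q2}) (B := {q1, q2}) (hpair hq1a hq2a)
          (Finset.subset_insert _ _) (by rw [Finset.card_pair hq12]) hg2
          (by
            intro b hb
            rcases Finset.mem_insert.1 hb with rfl | hb
            · exact hg2q1
            · rw [Finset.mem_singleton.1 hb]; exact hg2q2) hg2i (x := x1) (by simp) hg2x, h.hm]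
  · obtain ⟨s, hs, hsx, hsi⟩ := two_values h.hi hx1a (-1) (-1)
    have hsi' : s i < 0 := by rw [hsi]; norm_num
    refine finish (y := l) (s := s) hl.1 hs ?_ (A := {z, x2, q2}) (B := {i, x1, q1}) ?_ ?_ ?_
    · intro w hw hw0
      rcases h.hact w hw with h5 | h5 | h5
      · rw [hact] at h5
        simp only [Finset.mem_insert, Finset.mem_singleton] at h5
        rcases h5 with rfl | rfl | rfl | rfl | rfl
        · exact absurd hw0 hlz.ne'
        · rw [hsx]; norm_num
        · exact absurd hw0 hlx2.ne'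
        · exact absurd hw0 hlq1.ne
        · exact absurd hw0 hlq2
      · rw [h5]; exact hsi'.ne
      · rw [h5]; exact (hneg s hs hsi').ne
    · intro w hw
      simp only [Finset.mem_insert, Finset.mem_singleton] at hw
      rcases hw with rfl | rfl | rfl
      · exact Or.inl hlz
      · exact Or.inl hlx2
      · exact Or.inl hq2
    · intro w hw
      simp only [Finset.mem_insert, Finset.mem_singleton] at hw
      rcases hw with rfl | rfl | rfl
      · exact Or.inr ⟨hli, hsi'⟩
      · exact Or.inr ⟨hlx1, by rw [hsx]; norm_num⟩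
      · exact Or.inl hlq1
    · rw [h.K_of_i (A := {i, x1, q1}) (B := {x1, q1}) (by simp) (hpair hx1a hq1a)
          (Finset.subset_insert _ _) (by rw [Finset.card_pair hx1q1]),
        h.K_zero (A := {z, x2, q2}) (B := {z, x2}) (hpair hza hx2a)
          (by intro b hb; simp only [Finset.mem_insert, Finset.mem_singleton] at hb ⊢; tauto)
          (by rw [Finset.card_pair hzx2]) hg1
          (by
            intro b hb
            rcases Finset.mem_insert.1 hb with rfl | hb
            · exact hg1z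
            · rw [Finset.mem_singleton.1 hb]; exact hg1x) hg1i (x := q2) (by simp) hg1q, h.hm]

lemma par_k2 {U : Submodule ℝ (ι → ℝ)} {i j : ι} (h : Par 2 U i j)
    (hpos : ∀ μ ∈ U, 0 < μ i → 0 < μ j) (hneg : ∀ μ ∈ U, μ i < 0 → μ j < 0) : Good 2 U := by
  classical
  obtain ⟨y, hyU, z, hz, hyz, hyne, hP, hQ⟩ := balanced_wall h.hk h.hdim h.hcard h.H1'
  rcases par_aux1 h hneg hyU hz hyz hyne hP hQ with hg | ⟨g1, hg1, hg1P, hg1z, hg1i, hg1Q⟩
  · exact hg
  rcases par_aux1 h hneg (y := -y) (Submodule.neg_mem _ hyU) hz (by simp [hyz])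
    (neg_balanced hyne) (by rw [Pos_neg]; exact hQ) (by rw [Neg_neg]; exact hP) with
    hg | ⟨g2, hg2, hg2Q, hg2z, hg2i, hg2P⟩
  · exact hg
  rw [Pos_neg] at hg2Q
  rw [Neg_neg] at hg2P
  obtain ⟨w, hw, hwz⟩ : ∃ w ∈ K U {i}, 0 < w z := by
    obtain ⟨w, hw, h0⟩ := mem_act.1 hz
    rcases lt_or_gt_of_ne h0 with h' | h'
    · exact ⟨-w, Submodule.neg_mem _ hw, by simpa using h'⟩
    · exact ⟨w, hw, h'⟩
  obtain ⟨x1, hx1, hmin⟩ := Finset.exists_min_image (Pos y) (fun x => w x / y x) (by
    rw [← Finset.card_pos]; omega)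
  have hyx1 := mem_Pos.1 hx1
  set l : ι → ℝ := w - (w x1 / y x1) • y with hldef
  have hl : l ∈ K U {i} := Submodule.sub_mem _ hw (Submodule.smul_mem _ _ hyU)
  have hlz : 0 < l z := by
    simp only [hldef, Pi.sub_apply, Pi.smul_apply, smul_eq_mul, hyz, mul_zero, sub_zero]
    exact hwz
  have hlx1 : l x1 = 0 := by
    simp only [hldef, Pi.sub_apply, Pi.smul_apply, smul_eq_mul]
    field_simp
    ring
  have hx1a : x1 ∈ act (K U {i}) := Pos_subset_act hyU hx1
  have hlne : ∀ v ∈ act (K U {i}), v ≠ x1 → l v ≠ 0 := by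
    intro v hv hvx hc
    have : l = 0 := by
      refine unif0 h.hdim h.hcard h.H1' (S := {x1, v}) ?_ ?_ hl ?_
      · intro b hb
        rcases Finset.mem_insert.1 hb with rfl | hb
        · exact hx1a
        · rw [Finset.mem_singleton.1 hb]; exact hv
      · rw [Finset.card_pair hvx.symm]
      · intro b hb
        rcases Finset.mem_insert.1 hb with rfl | hb
        · exact hlx1
        · rw [Finset.mem_singleton.1 hb]; exact hc
    rw [this] at hlz
    simp at hlz
  -- the other element of Pos y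
  obtain ⟨x2, hx2e⟩ : ∃ x2, (Pos y).erase x1 = {x2} := by
    rw [← Finset.card_eq_one, Finset.card_erase_of_mem hx1]
    omega
  have hx2m : x2 ∈ (Pos y).erase x1 := by rw [hx2e]; simp
  have hx2 : x2 ∈ Pos y := Finset.mem_of_mem_erase hx2m
  have hx12 : x2 ≠ x1 := Finset.ne_of_mem_erase hx2m
  have hPy : Pos y = {x1, x2} := by
    rw [← Finset.insert_erase hx1, hx2e]
  have hlx2 : 0 < l x2 := by
    have h1 := hlne x2 (Pos_subset_act hyU hx2) hx12
    refine lt_of_le_of_ne ?_ h1.symm
    have h2 := hmin x2 hx2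
    have h3 := mem_Pos.1 hx2
    rw [le_div_iff₀ h3] at h2
    simp only [hldef, Pi.sub_apply, Pi.smul_apply, smul_eq_mul]
    linarith
  have hactmem : ∀ v ∈ act (K U {i}), v = z ∨ v = x1 ∨ v = x2 ∨ v ∈ Neg y := by
    intro v hv
    by_cases hvz : v = z
    · exact Or.inl hvz
    · rcases mem_Pos_or_Neg (hyne v hv hvz) with h' | h'
      · rw [hPy] at h'
        simp only [Finset.mem_insert, Finset.mem_singleton] at h'
        tauto
      · tauto
  -- a negative coordinate
  obtain ⟨q1, hq1⟩ := h.H2 l hl.1 (by rintro h0; rw [h0] at hlz; simp at hlz)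
  have hq1N : q1 ∈ Neg y := by
    rcases hactmem q1 (mem_act.2 ⟨l, hl, hq1.ne⟩) with rfl | rfl | rfl | h'
    · linarith
    · linarith
    · linarith
    · exact h'
  obtain ⟨q2, hq2e⟩ : ∃ q2, (Neg y).erase q1 = {q2} := by
    rw [← Finset.card_eq_one, Finset.card_erase_of_mem hq1N]
    omega
  have hq2m : q2 ∈ (Neg y).erase q1 := by rw [hq2e]; simp
  have hq2 : q2 ∈ Neg y := Finset.mem_of_mem_erase hq2m
  have hq12 : q2 ≠ q1 := Finset.ne_of_mem_erase hq2m
  have hNy : Neg y = {q1, q2} := by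
    rw [← Finset.insert_erase hq1N, hq2e]
  have hPN : ∀ {a b : ι}, a ∈ Pos y → b ∈ Neg y → a ≠ b := by
    rintro a b ha hb rfl
    have := mem_Pos.1 ha
    have := mem_Neg.1 hb
    linarith
  have hzx2 : z ≠ x2 := by
    rintro rfl
    have := mem_Pos.1 hx2
    linarith
  have hacteq : act (K U {i}) = {z, x1, x2, q1, q2} := by
    apply Finset.Subset.antisymm
    · intro v hv
      have h' := hactmem v hv
      rw [hNy] at h'
      simp only [Finset.mem_insert, Finset.mem_singleton] at h' ⊢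
      exact h'
    · intro v hv
      simp only [Finset.mem_insert, Finset.mem_singleton] at hv
      rcases hv with rfl | rfl | rfl | rfl | rfl
      · exact hz
      · exact hx1a
      · exact Pos_subset_act hyU hx2
      · exact Neg_subset_act hyU hq1N
      · exact Neg_subset_act hyU hq2
  exact par_k2_aux h hpos hneg hacteq hzx2 hx12.symm (hPN hx1 hq1N) hq12.symm hg1 hg1z
    (hg1P x2 hx2) hg1i (hg1Q q2 hq2) hg2 (hg2Q q1 hq1N) (hg2Q q2 hq2) hg2i (hg2P x1 hx1) hl hlz
    hlx1 hlx2 hq1 (hlne q2 (Neg_subset_act hyU hq2) (hPN hx1 hq2).symm)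

/-- the whole parallel case -/
lemma parallel_case {k : ℕ} (hk : 2 ≤ k) {U : Submodule ℝ (ι → ℝ)} (hm : finrank ℝ U = k + 1)
    (hn : (act U).card ≤ 2 * finrank ℝ U + 1)
    (H1 : ∀ μ ∈ U, μ ≠ 0 → k + 2 ≤ (univ.filter (fun i => μ i ≠ 0)).card)
    (H2 : ∀ μ ∈ U, μ ≠ 0 → ∃ i, μ i < 0) {i j : ι} (hi : i ∈ act U) (hj : j ∈ act U)
    (hij : i ≠ j) {α : ℝ} (hα : ∀ μ ∈ U, μ i = α * μ j) : Good k U := by
  classical
  have hα0 : α ≠ 0 := by
    rintro rfl
    obtain ⟨μ, hμ, h0⟩ := mem_act.1 hi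
    exact h0 (by rw [hα μ hμ, zero_mul])
  have hj0 : ∀ μ ∈ U, μ i = 0 → μ j = 0 := by
    intro μ hμ h0
    rw [hα μ hμ] at h0
    exact (mul_eq_zero.1 h0).resolve_left hα0
  have hfr := finrank_K_singleton hi
  have hdim : finrank ℝ (K U {i}) = k := by omega
  have hsub : act (K U {i}) ⊆ ((act U).erase i).erase j := by
    intro w hw
    obtain ⟨μ, hμ, h0⟩ := mem_act.1 hw
    have hμi : μ i = 0 := hμ.2 i (Finset.mem_singleton_self i)
    refine Finset.mem_erase.2 ⟨?_, Finset.mem_erase.2 ⟨?_, mem_act.2 ⟨μ, hμ.1, h0⟩⟩⟩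
    · rintro rfl; exact h0 (hj0 μ hμ.1 hμi)
    · rintro rfl; exact h0 hμi
  have hc1 : (((act U).erase i).erase j).card + 2 = (act U).card := by
    rw [Finset.card_erase_of_mem (Finset.mem_erase.2 ⟨hij.symm, hj⟩),
      Finset.card_erase_of_mem hi]
    have : 1 < (act U).card := Finset.one_lt_card.2 ⟨i, hi, j, hj, hij⟩
    omega
  have hc2 := card_act_ge H1 (K U {i}) (K_le U {i}) (by omega)
  have hc3 := Finset.card_le_card hsub
  have hcard : (act (K U {i})).card = 2 * k + 1 := by omega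
  have heq : act (K U {i}) = ((act U).erase i).erase j :=
    Finset.eq_of_subset_of_card_le hsub (by omega)
  have hact : ∀ w ∈ act U, w ∈ act (K U {i}) ∨ w = i ∨ w = j := by
    intro w hw
    rw [heq, Finset.mem_erase, Finset.mem_erase]
    by_cases h1 : w = i
    · tauto
    · by_cases h2 : w = j
      · tauto
      · left; exact ⟨h2, h1, hw⟩
  have hpar : Par k U i j := ⟨hk, hm, H1, H2, hi, hj0, hdim, hcard, hact⟩
  rcases lt_or_gt_of_ne hα0 with hα1 | hα1
  · -- opposite signs
    obtain ⟨y, hyU, z, hz, hyz, hyne, hP, hQ⟩ := balanced_wall hk hdim hcard hpar.H1'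
    have hyi : y i = 0 := hyU.2 i (Finset.mem_singleton_self i)
    have hyj : y j = 0 := hj0 y hyU.1 hyi
    obtain ⟨s, hs, hsz, hsi⟩ := two_values hi hz 1 1
    have hsj : s j < 0 := by
      have h1 := hα s hs
      rw [hsi] at h1
      by_contra hc
      have := mul_nonpos_of_nonpos_of_nonneg hα1.le (not_lt.1 hc)
      linarith
    refine finish (y := y) (s := s) hyU.1 hs ?_ (A := insert i (Pos y)) (B := insert j (Neg y))
      ?_ ?_ ?_
    · intro w hw hw0
      rcases hact w hw with h5 | h5 | h5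
      · by_cases hwz : w = z
        · rw [hwz, hsz]; norm_num
        · exact absurd hw0 (hyne w h5 hwz)
      · rw [h5, hsi]; norm_num
      · rw [h5]; exact hsj.ne
    · intro w hw
      rcases Finset.mem_insert.1 hw with rfl | hw
      · right; exact ⟨hyi, by rw [hsi]; norm_num⟩
      · left; exact mem_Pos.1 hw
    · intro w hw
      rcases Finset.mem_insert.1 hw with rfl | hw
      · right; exact ⟨hyj, hsj⟩
      · left; exact mem_Neg.1 hw
    · have h1 : kap U (insert i (Pos y)) = 0 :=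
        hpar.K_of_i (Finset.mem_insert_self i _) (Pos_subset_act hyU) (Finset.subset_insert _ _)
          hP.ge
      have h2 : kap U (insert j (Neg y)) = 0 := by
        have h3 : kap U (insert i (Neg y)) = 0 :=
          hpar.K_of_i (Finset.mem_insert_self i _) (Neg_subset_act hyU)
            (Finset.subset_insert _ _) hQ.ge
        have h4 : kap U (insert j (Neg y)) ≤ kap U (insert i (Neg y)) := by
          apply kap_le_of_le
          intro μ hμ
          refine ⟨hμ.1, fun x hx => ?_⟩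
          rcases Finset.mem_insert.1 hx with rfl | hx
          · rw [hα μ hμ.1, hμ.2 j (Finset.mem_insert_self j _), mul_zero]
          · exact hμ.2 x (Finset.mem_insert_of_mem hx)
        omega
      omega
  · have hpos : ∀ μ ∈ U, 0 < μ i → 0 < μ j := by
      intro μ hμ h0
      rw [hα μ hμ] at h0
      exact (pos_iff_pos_of_mul_pos h0).1 hα1
    have hneg : ∀ μ ∈ U, μ i < 0 → μ j < 0 := by
      intro μ hμ h0
      have h1 := hpos (-μ) (U.neg_mem hμ) (by simpa using h0)
      simpa using h1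
    rcases Nat.lt_or_ge 2 k with hk3 | hk3
    · exact par_k3 hpar hpos hneg hk3
    · obtain rfl : k = 2 := by omega
      exact par_k2 hpar hpos hneg

/-- **Linear core.** -/
theorem core {k : ℕ} (hk : 2 ≤ k) (n : ℕ) : ∀ (U : Submodule ℝ (ι → ℝ)), finrank ℝ U = n →
    k + 1 ≤ finrank ℝ U → (act U).card ≤ 2 * finrank ℝ U + 1 →
    (∀ μ ∈ U, μ ≠ 0 → k + 2 ≤ (univ.filter (fun i => μ i ≠ 0)).card) →
    (∀ μ ∈ U, μ ≠ 0 → ∃ i, μ i < 0) → Good k U := by
  induction n with
  | zero => intro U h1 h2; omega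
  | succ n ih =>
    intro U hUn hm hn H1 H2
    by_cases hs : Simple U
    · exact simple_case hm hn H1 H2 hs
    · unfold Simple at hs
      push Not at hs
      obtain ⟨i, hi, j, hj, hij, α, hα⟩ := hs
      rcases Nat.lt_or_ge (k + 1) (finrank ℝ U) with h1 | h1
      · have hfr := finrank_K_singleton hi
        apply contract hi
        refine ih (K U {i}) (by omega) (by omega) ?_ (fun μ hμ => H1 μ hμ.1)
          (fun μ hμ => H2 μ hμ.1)
        have hα0 : α ≠ 0 := by
          rintro rfl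
          obtain ⟨μ, hμ, h0⟩ := mem_act.1 hi
          exact h0 (by rw [hα μ hμ, zero_mul])
        have hsub : act (K U {i}) ⊆ ((act U).erase i).erase j := by
          intro w hw
          obtain ⟨μ, hμ, h0⟩ := mem_act.1 hw
          have hμi : μ i = 0 := hμ.2 i (Finset.mem_singleton_self i)
          refine Finset.mem_erase.2 ⟨?_, Finset.mem_erase.2 ⟨?_, mem_act.2 ⟨μ, hμ.1, h0⟩⟩⟩
          · rintro rfl
            rw [hα μ hμ.1] at hμi
            exact h0 ((mul_eq_zero.1 hμi).resolve_left hα0)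
          · rintro rfl; exact h0 hμi
        have hc3 := Finset.card_le_card hsub
        rw [Finset.card_erase_of_mem (Finset.mem_erase.2 ⟨hij.symm, hj⟩),
          Finset.card_erase_of_mem hi] at hc3
        omega
      · exact parallel_case hk (by omega) hn H1 H2 hi hj hij hα

end MPa0e17f
end

section
open Finset Module

set_option linter.unusedSectionVars false
set_option linter.unusedFintypeInType false
set_option linter.unusedDecidableInType false

namespace MPa0e17f

variable {E : Type*} [AddCommGroup E] [Module ℝ E]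

lemma kindep_iff_weights {k : ℕ} {S : Finset E} :
    KIndep k S ↔ ∀ w : E → ℝ, (∑ x ∈ S, w x = 0) → (∑ x ∈ S, w x • x = 0) →
      (S.filter (fun x => w x ≠ 0)).card ≤ k + 1 → ∀ x ∈ S, w x = 0 := by
  classical
  constructor
  · intro h w h1 h2 h3 x hx
    by_contra hne
    have h4 := h (S.filter (fun x => w x ≠ 0)) (Finset.filter_subset _ _) h3
    rw [affineIndependent_iff] at h4
    have h5 := h4 univ (fun x => w x) ?_ ?_ ⟨x, Finset.mem_filter.2 ⟨hx, hne⟩⟩ (Finset.mem_univ _)
    · exact hne h5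
    · rw [Finset.sum_coe_sort (S.filter (fun x => w x ≠ 0)) w]
      refine Eq.trans ?_ h1
      apply Finset.sum_subset (Finset.filter_subset _ _)
      intro y hy hy'
      by_contra hc
      exact hy' (Finset.mem_filter.2 ⟨hy, hc⟩)
    · rw [Finset.sum_coe_sort (S.filter (fun x => w x ≠ 0)) (fun x => w x • x)]
      refine Eq.trans ?_ h2
      apply Finset.sum_subset (Finset.filter_subset _ _)
      intro y hy hy'
      by_contra hc
      exact hy' (Finset.mem_filter.2 ⟨hy, fun h0 => hc (by rw [h0, zero_smul])⟩)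
  · intro h T hT hTc
    rw [affineIndependent_iff]
    intro t w h1 h2 e he
    set w' : E → ℝ := fun x => if hx : x ∈ T then (if (⟨x, hx⟩ : T) ∈ t then w ⟨x, hx⟩ else 0)
      else 0 with hw'
    have hw1 : ∀ x : T, w' x = if x ∈ t then w x else 0 := by
      intro x
      simp only [hw', x.2, dite_true, Subtype.coe_eta]
    have hw0 : ∀ x, x ∉ T → w' x = 0 := by
      intro x hx
      simp only [hw', hx, dite_false]
    have h3 := h w' ?_ ?_ ?_ e (hT e.2)
    · rw [hw1 e, if_pos he] at h3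
      exact h3
    · rw [← Finset.sum_subset hT (fun x _ hx => hw0 x hx), ← Finset.sum_coe_sort T w']
      simp only [hw1, Finset.sum_ite_mem, Finset.univ_inter]
      exact h1
    · rw [← Finset.sum_subset hT (fun x _ hx => by rw [hw0 x hx, zero_smul]),
        ← Finset.sum_coe_sort T (fun x => w' x • x)]
      simp only [hw1, ite_smul, zero_smul, Finset.sum_ite_mem, Finset.univ_inter]
      exact h2
    · refine le_trans (Finset.card_le_card ?_) hTc
      intro x hx
      rw [Finset.mem_filter] at hx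
      by_contra hc
      exact hx.2 (hw0 x hc)

variable {ι : Type*} [Fintype ι] [DecidableEq ι]

/-- affine dependences of a family of points -/
def dep (p : ι → E) : Submodule ℝ (ι → ℝ) where
  carrier := {μ | ∑ i, μ i = 0 ∧ ∑ i, μ i • p i = 0}
  add_mem' := by
    rintro a b ⟨ha, ha'⟩ ⟨hb, hb'⟩
    refine ⟨?_, ?_⟩
    · simp only [Pi.add_apply, Finset.sum_add_distrib, ha, hb, add_zero]
    · simp only [Pi.add_apply, add_smul, Finset.sum_add_distrib, ha', hb', add_zero]
  zero_mem' := by simp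
  smul_mem' := by
    rintro c a ⟨ha, ha'⟩
    refine ⟨?_, ?_⟩
    · simp only [Pi.smul_apply, smul_eq_mul, ← Finset.mul_sum, ha, mul_zero]
    · simp only [Pi.smul_apply, smul_eq_mul, mul_smul, ← Finset.smul_sum, ha', smul_zero]

lemma mem_dep {p : ι → E} {μ : ι → ℝ} : μ ∈ dep p ↔ ∑ i, μ i = 0 ∧ ∑ i, μ i • p i = 0 := Iff.rfl

lemma kindep_iff_dep {k : ℕ} (p : ι ↪ E) : KIndep k (univ.map p) ↔
    ∀ μ ∈ dep p, μ ≠ 0 → k + 2 ≤ (univ.filter (fun i => μ i ≠ 0)).card := by
  rw [kindep_iff_weights]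
  constructor
  · intro h μ hμ hne
    by_contra hc
    apply hne
    set w : E → ℝ := Function.extend p μ 0 with hw
    have hwp : ∀ i, w (p i) = μ i := fun i => p.injective.extend_apply μ 0 i
    have h1 := h w ?_ ?_ ?_
    · ext i
      have := h1 (p i) (Finset.mem_map_of_mem p (Finset.mem_univ i))
      rw [hwp] at this
      simpa using this
    · rw [Finset.sum_map]
      simp only [hwp]
      exact hμ.1
    · rw [Finset.sum_map]
      simp only [hwp]
      exact hμ.2
    · rw [Finset.filter_map, Finset.card_map]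
      simp only [Function.comp_def, hwp]
      omega
  · intro h w h1 h2 h3 x hx
    obtain ⟨i, -, rfl⟩ := Finset.mem_map.1 hx
    rw [Finset.sum_map] at h1 h2
    rw [Finset.filter_map, Finset.card_map] at h3
    have h4 : (fun i => w (p i)) ∈ dep p := ⟨h1, h2⟩
    by_contra hne
    have h5 := h _ h4 (fun h0 => hne (congrFun h0 i))
    simp only [Function.comp_def] at h3
    omega

lemma finrank_dep_ge [FiniteDimensional ℝ E] (p : ι → E) :
    Fintype.card ι ≤ finrank ℝ (dep p) + (finrank ℝ E + 1) := by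
  let f : (ι → ℝ) →ₗ[ℝ] ℝ × E :=
    { toFun := fun μ => (∑ i, μ i, ∑ i, μ i • p i)
      map_add' := by
        intro a b
        ext
        · simp only [Pi.add_apply, Finset.sum_add_distrib, Prod.mk_add_mk]
        · simp only [Pi.add_apply, add_smul, Finset.sum_add_distrib, Prod.mk_add_mk]
      map_smul' := by
        intro c a
        ext
        · simp only [Pi.smul_apply, smul_eq_mul, Finset.mul_sum, RingHom.id_apply, Prod.smul_mk]
        · simp only [Pi.smul_apply, smul_eq_mul, mul_smul, Finset.smul_sum, RingHom.id_apply,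
            Prod.smul_mk] }
  have h1 := f.finrank_range_add_finrank_ker
  have h2 : LinearMap.ker f = dep p := by
    ext μ
    rw [LinearMap.mem_ker, mem_dep]
    change (_, _) = ((0 : ℝ), (0 : E)) ↔ _
    rw [Prod.mk.injEq]
  have h3 : finrank ℝ (LinearMap.range f) ≤ finrank ℝ (ℝ × E) := Submodule.finrank_le _
  rw [Module.finrank_prod, Module.finrank_self] at h3
  rw [h2, Module.finrank_pi] at h1
  omega

lemma exists_neg_of_dep {p : ι → E} {μ : ι → ℝ} (hμ : μ ∈ dep p) (h0 : μ ≠ 0) : ∃ i, μ i < 0 := by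
  by_contra hc
  push Not at hc
  apply h0
  have := (Finset.sum_eq_zero_iff_of_nonneg (fun i _ => hc i)).1 hμ.1
  ext i
  exact this i (Finset.mem_univ i)

/-- the point of the intersection defined by a dependence -/
lemma mem_inter_of_dep (p : ι ↪ E) {A : Finset ι} {l : ι → ℝ} (hl : l ∈ dep p)
    (hA : ∀ i ∈ A, 0 ≤ l i) (hA' : ∀ i ∉ A, l i ≤ 0) (hs : ∑ i ∈ A, l i = 1) :
    ∑ i ∈ A, l i • p i ∈ convexHull ℝ ((A.map p : Finset E) : Set E) ∩
      convexHull ℝ ((Aᶜ.map p : Finset E) : Set E) := by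
  have h1 : ∑ i ∈ A, l i + ∑ i ∈ Aᶜ, l i = 0 := by rw [Finset.sum_add_sum_compl]; exact hl.1
  have h2 : ∑ i ∈ A, l i • p i + ∑ i ∈ Aᶜ, l i • p i = 0 := by
    rw [Finset.sum_add_sum_compl]; exact hl.2
  constructor
  · apply (convex_convexHull ℝ _).sum_mem hA hs
    intro i hi
    exact subset_convexHull ℝ _ (Finset.mem_coe.2 (Finset.mem_map_of_mem p hi))
  · have h3 : ∑ i ∈ A, l i • p i = ∑ i ∈ Aᶜ, (-l i) • p i := by
      simp only [neg_smul, Finset.sum_neg_distrib]
      exact eq_neg_of_add_eq_zero_left h2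
    rw [h3]
    apply (convex_convexHull ℝ _).sum_mem
    · intro i hi
      have := hA' i (Finset.mem_compl.1 hi)
      linarith
    · rw [Finset.sum_neg_distrib]
      linarith
    · intro i hi
      exact subset_convexHull ℝ _ (Finset.mem_coe.2 (Finset.mem_map_of_mem p hi))

lemma restrict_mem {p : ι → E} {c : ι → ℝ} {A : Finset ι} (h1 : ∑ i ∈ A, c i = 0)
    (h2 : ∑ i ∈ A, c i • p i = 0) : (fun i => if i ∈ A then c i else 0) ∈ dep p := by
  refine ⟨?_, ?_⟩
  · simp only [Finset.sum_ite_mem, Finset.univ_inter]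
    exact h1
  · simp only [ite_smul, zero_smul, Finset.sum_ite_mem, Finset.univ_inter]
    exact h2

/-- the linear map `c ↦ ∑_{i ∈ A} c i • p i` -/
noncomputable def psi (p : ι → E) (A : Finset ι) : (ι → ℝ) →ₗ[ℝ] E :=
  ∑ i ∈ A, (LinearMap.proj i : (ι → ℝ) →ₗ[ℝ] ℝ).smulRight (p i)

lemma psi_apply (p : ι → E) (A : Finset ι) (c : ι → ℝ) : psi p A c = ∑ i ∈ A, c i • p i := by
  simp [psi]

/-- the linear functional `c ↦ ∑_{i ∈ A} c i` -/
noncomputable def sumOn (A : Finset ι) : (ι → ℝ) →ₗ[ℝ] ℝ :=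
  ∑ i ∈ A, (LinearMap.proj i : (ι → ℝ) →ₗ[ℝ] ℝ)

lemma sumOn_apply (A : Finset ι) (c : ι → ℝ) : sumOn A c = ∑ i ∈ A, c i := by
  simp [sumOn]

lemma finrank_inf_ker (U : Submodule ℝ (ι → ℝ)) (f : (ι → ℝ) →ₗ[ℝ] ℝ) :
    finrank ℝ U ≤ finrank ℝ (U ⊓ LinearMap.ker f : Submodule ℝ (ι → ℝ)) + 1 := by
  have h1 := (f.domRestrict U).finrank_range_add_finrank_ker
  have h2 : finrank ℝ (LinearMap.range (f.domRestrict U)) ≤ 1 := by
    have := Submodule.finrank_le (LinearMap.range (f.domRestrict U))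
    rwa [Module.finrank_self] at this
  have h3 : finrank ℝ (LinearMap.ker (f.domRestrict U)) ≤
      finrank ℝ (U ⊓ LinearMap.ker f : Submodule ℝ (ι → ℝ)) := by
    let g : LinearMap.ker (f.domRestrict U) →ₗ[ℝ] (U ⊓ LinearMap.ker f : Submodule ℝ (ι → ℝ)) :=
      { toFun := fun x => ⟨x.1.1, ⟨x.1.2, LinearMap.mem_ker.2 (LinearMap.mem_ker.1 x.2)⟩⟩
        map_add' := fun _ _ => rfl
        map_smul' := fun _ _ => rfl }
    apply LinearMap.finrank_le_finrank_of_injective (f := g)
    intro a b hab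
    have := congrArg Subtype.val hab
    exact Subtype.ext (Subtype.ext this)
  omega

/-- from the linear core to divisibility -/
lemma divisible_of_good {k : ℕ} [FiniteDimensional ℝ E] (p : ι ↪ E) (h1 : 1 ≤ finrank ℝ (dep p))
    (hG : Good k (dep p)) : Divisible k (univ.map p) := by
  classical
  obtain ⟨l, hl, hl0, hk⟩ := hG
  set A := Pos l with hA
  -- `l` is not zero
  have hlne : l ≠ 0 := by
    rintro rfl
    have hact : act (dep p) = ∅ := by
      by_contra hc
      obtain ⟨i, hi⟩ := Finset.nonempty_iff_ne_empty.2 hc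
      exact hl0 i hi rfl
    have : dep p = ⊥ := by
      rw [eq_bot_iff]
      intro μ hμ
      rw [Submodule.mem_bot]
      ext i
      exact not_act (by rw [hact]; simp) hμ
    rw [this] at h1
    simp at h1
  have hpos : 0 < ∑ i ∈ A, l i := by
    apply Finset.sum_pos
    · intro i hi; exact mem_Pos.1 hi
    · by_contra hc
      rw [Finset.not_nonempty_iff_eq_empty] at hc
      obtain ⟨i, hi⟩ := exists_neg_of_dep (neg_mem hl) (neg_ne_zero.2 hlne)
      have : i ∈ A := mem_Pos.2 (by simpa using hi)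
      rw [hc] at this
      simp at this
  set σ := ∑ i ∈ A, l i with hσ
  -- the subspace W
  set W : Submodule ℝ (ι → ℝ) := dep p ⊓ LinearMap.ker (sumOn A) with hW
  have hWfr := finrank_inf_ker (dep p) (sumOn A)
  -- points of the intersection
  set C : Set E := convexHull ℝ ((A.map p : Finset E) : Set E) ∩
      convexHull ℝ ((Aᶜ.map p : Finset E) : Set E) with hC
  have hzero : ∀ c ∈ dep p, ∀ i, l i = 0 → c i = 0 := by
    intro c hc i hi
    exact not_act (fun hact => hl0 i hact hi) hc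
  have hx0 : ∑ i ∈ A, (σ⁻¹ • l) i • p i ∈ C := by
    apply mem_inter_of_dep p ((dep p).smul_mem _ hl)
    · intro i hi
      simp only [Pi.smul_apply, smul_eq_mul]
      exact mul_nonneg (inv_nonneg.2 hpos.le) (mem_Pos.1 hi).le
    · intro i hi
      simp only [Pi.smul_apply, smul_eq_mul]
      apply mul_nonpos_of_nonneg_of_nonpos (inv_nonneg.2 hpos.le)
      by_contra hc
      exact hi (mem_Pos.2 (not_le.1 hc))
    · simp only [Pi.smul_apply, smul_eq_mul, ← Finset.mul_sum]
      exact inv_mul_cancel₀ hpos.ne'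
  have hrange : W.map (psi p A) ≤ vectorSpan ℝ C := by
    rintro _ ⟨c, hc, rfl⟩
    obtain ⟨ε, hε, e1, e2⟩ := nudge l c
    have e1' : Pos (l + ε • c) = A := by
      rw [e1]
      apply Finset.Subset.antisymm
      · apply Finset.union_subset (Finset.Subset.refl _)
        intro i hi
        rw [Finset.mem_sdiff] at hi
        refine mem_Pos.2 ?_
        have h2 := mem_Pos.1 hi.1
        have h3 : l i ≠ 0 := fun h0 => h2.ne' (hzero c hc.1 i h0)
        rcases mem_Pos_or_Neg h3 with h4 | h4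
        · exact mem_Pos.1 h4
        · exact absurd h4 hi.2
      · exact Finset.subset_union_left
    have hcsum : ∑ i ∈ A, c i = 0 := by
      have := LinearMap.mem_ker.1 hc.2
      rwa [sumOn_apply] at this
    have hx1 : ∑ i ∈ A, (σ⁻¹ • (l + ε • c)) i • p i ∈ C := by
      apply mem_inter_of_dep p ((dep p).smul_mem _ ((dep p).add_mem hl ((dep p).smul_mem _ hc.1)))
      · intro i hi
        rw [Pi.smul_apply, smul_eq_mul]
        rw [← e1'] at hi
        exact mul_nonneg (inv_nonneg.2 hpos.le) (mem_Pos.1 hi).le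
      · intro i hi
        rw [Pi.smul_apply, smul_eq_mul]
        apply mul_nonpos_of_nonneg_of_nonpos (inv_nonneg.2 hpos.le)
        by_contra hcon
        exact hi (by rw [← e1']; exact mem_Pos.2 (not_le.1 hcon))
      · simp only [Pi.smul_apply, smul_eq_mul, ← Finset.mul_sum, Pi.add_apply,
          Finset.sum_add_distrib, hcsum, mul_zero, add_zero]
        exact inv_mul_cancel₀ hpos.ne'
    have h5 := vsub_mem_vectorSpan ℝ hx1 hx0
    have h6 : (∑ i ∈ A, (σ⁻¹ • (l + ε • c)) i • p i) -ᵥ (∑ i ∈ A, (σ⁻¹ • l) i • p i) =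
        (σ⁻¹ * ε) • psi p A c := by
      rw [vsub_eq_sub, ← Finset.sum_sub_distrib, psi_apply, Finset.smul_sum]
      apply Finset.sum_congr rfl
      intro i _
      rw [← sub_smul, smul_smul]
      congr 1
      simp only [Pi.smul_apply, smul_eq_mul, Pi.add_apply]
      ring
    rw [h6] at h5
    have h7 : (σ⁻¹ * ε) ≠ 0 := mul_ne_zero (inv_ne_zero hpos.ne') hε.ne'
    have h8 := Submodule.smul_mem _ (σ⁻¹ * ε)⁻¹ h5
    rwa [smul_smul, inv_mul_cancel₀ h7, one_smul] at h8
  -- the kernel
  have hker : finrank ℝ W ≤ finrank ℝ (W.map (psi p A)) +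
      (kap (dep p) (Pos l) + kap (dep p) (Neg l)) := by
    have h2 := ((psi p A).domRestrict W).finrank_range_add_finrank_ker
    have h3 : LinearMap.range ((psi p A).domRestrict W) = W.map (psi p A) := by
      ext x
      constructor
      · rintro ⟨c, rfl⟩
        exact ⟨c.1, c.2, rfl⟩
      · rintro ⟨c, hc, rfl⟩
        exact ⟨⟨c, hc⟩, rfl⟩
    rw [h3] at h2
    have h4 : finrank ℝ (LinearMap.ker ((psi p A).domRestrict W)) ≤
        finrank ℝ (K (dep p) (Pos l) ⊔ K (dep p) (Neg l) : Submodule ℝ (ι → ℝ)) := by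
      let g : LinearMap.ker ((psi p A).domRestrict W) →ₗ[ℝ]
          (K (dep p) (Pos l) ⊔ K (dep p) (Neg l) : Submodule ℝ (ι → ℝ)) :=
        { toFun := fun x => ⟨x.1.1, by
            have h5 : ∑ i ∈ A, x.1.1 i • p i = 0 := by
              have := LinearMap.mem_ker.1 x.2
              rw [← psi_apply]
              exact this
            have h6 : ∑ i ∈ A, x.1.1 i = 0 := by
              have := LinearMap.mem_ker.1 x.1.2.2
              rwa [sumOn_apply] at this
            have h7 := restrict_mem h6 h5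
            have h8 : x.1.1 - (fun i => if i ∈ A then x.1.1 i else 0) ∈ dep p :=
              (dep p).sub_mem x.1.2.1 h7
            rw [← sub_add_cancel x.1.1 (fun i => if i ∈ A then x.1.1 i else 0)]
            refine Submodule.add_mem_sup ⟨h8, ?_⟩ ⟨h7, ?_⟩
            · intro i hi
              simp only [Pi.sub_apply]
              rw [if_pos hi, sub_self]
            · intro i hi
              refine if_neg ?_
              intro hc
              have h9 := mem_Pos.1 hc
              have h10 := mem_Neg.1 hi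
              linarith⟩
          map_add' := fun _ _ => rfl
          map_smul' := fun _ _ => rfl }
      apply LinearMap.finrank_le_finrank_of_injective (f := g)
      intro a b hab
      have := congrArg Subtype.val hab
      exact Subtype.ext (Subtype.ext this)
    have h5 := Submodule.finrank_add_le_finrank_add_finrank (K (dep p) (Pos l)) (K (dep p) (Neg l))
    unfold kap
    omega
  have hfin : finrank ℝ (W.map (psi p A)) ≤ finrank ℝ (vectorSpan ℝ C) :=
    Submodule.finrank_mono hrange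
  refine ⟨A.map p, Aᶜ.map p, ?_, ?_, ⟨_, hx0⟩, ?_⟩
  · rw [Finset.disjoint_map]
    exact disjoint_compl_right
  · rw [← Finset.coe_union, ← Finset.map_union, Finset.union_compl]
  · change kap (dep p) (Pos l) + kap (dep p) (Neg l) + (k + 1) ≤ finrank ℝ (dep p) at hk
    change finrank ℝ (dep p) ≤ finrank ℝ W + 1 at hWfr
    change k ≤ finrank ℝ (vectorSpan ℝ C)
    omega

/-- **Upper bound.** -/
theorem divisible_of_card_eq {k d : ℕ} (hk : 2 ≤ k) (hkd : k + 1 ≤ d) [FiniteDimensional ℝ E]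
    (hE : finrank ℝ E = d) (p : ι ↪ E) (hcard : Fintype.card ι = 2 * d + 1)
    (hK : KIndep k (univ.map p)) : Divisible k (univ.map p) := by
  have h1 := finrank_dep_ge (p : ι → E)
  apply divisible_of_good p (by omega)
  apply core hk _ (dep p) rfl (by omega)
  · have h2 := Finset.card_le_univ (act (dep p))
    omega
  · exact (kindep_iff_dep p).1 hK
  · exact fun μ hμ h0 => exists_neg_of_dep hμ h0

lemma KIndep.mono {k : ℕ} {S T : Finset E} (h : KIndep k S) (hT : T ⊆ S) : KIndep k T :=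
  fun R hR hc => h R (hR.trans hT) hc

lemma Divisible.mono {k : ℕ} [FiniteDimensional ℝ E] {S T : Finset E} (h : Divisible k T)
    (hT : T ⊆ S) : Divisible k S := by
  classical
  obtain ⟨T₁, T₂, hd, hu, hne, hf⟩ := h
  have hu' : T₁ ∪ T₂ = T := by rw [← Finset.coe_inj, Finset.coe_union]; exact hu
  have hsub : convexHull ℝ (T₁ : Set E) ∩ convexHull ℝ (T₂ : Set E) ⊆
      convexHull ℝ (((S \ T) ∪ T₁ : Finset E) : Set E) ∩ convexHull ℝ (T₂ : Set E) := by
    apply Set.inter_subset_inter_left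
    apply convexHull_mono
    exact_mod_cast Finset.subset_union_right
  refine ⟨(S \ T) ∪ T₁, T₂, ?_, ?_, hne.mono hsub, ?_⟩
  · rw [Finset.disjoint_union_left]
    refine ⟨?_, hd⟩
    apply Disjoint.mono_right (c := T) _ Finset.sdiff_disjoint
    rw [← hu']
    exact Finset.subset_union_right
  · rw [← Finset.coe_union, Finset.union_assoc, hu', Finset.sdiff_union_of_subset hT]
  · exact hf.trans (Submodule.finrank_mono (vectorSpan_mono ℝ hsub))

theorem divisible_of_card_ge {k d : ℕ} (hk : 2 ≤ k) (hkd : k + 1 ≤ d) [FiniteDimensional ℝ E]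
    (hE : finrank ℝ E = d) (S : Finset E) (hcard : 2 * d + 1 ≤ S.card)
    (hK : KIndep k S) : Divisible k S := by
  classical
  obtain ⟨T, hT, hTc⟩ := Finset.exists_subset_card_eq hcard
  have h1 : (univ : Finset T).map (Function.Embedding.subtype (· ∈ T)) = T := by
    ext x
    simp
  have h2 : Divisible k ((univ : Finset T).map (Function.Embedding.subtype (· ∈ T))) := by
    apply divisible_of_card_eq hk hkd hE
    · rw [Fintype.card_coe]; exact hTc
    · rw [h1]; exact hK.mono hT
  rw [h1] at h2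
  exact h2.mono hT

end MPa0e17f
end

section
open Finset Module

set_option linter.unusedSectionVars false
set_option linter.unusedFintypeInType false
set_option linter.unusedDecidableInType false

namespace MPa0e17f

section general

variable {E : Type*} [AddCommGroup E] [Module ℝ E]
variable {ι : Type*} [Fintype ι] [DecidableEq ι]

/-- If the space of affine dependences has dimension at most `k`, the set is not
`(2,k)`-divisible. -/
lemma not_divisible_of_finrank_dep_le {k : ℕ} (p : ι ↪ E)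
    (h : finrank ℝ (dep p) ≤ k) : ¬ Divisible k (univ.map p) := by
  classical
  rintro ⟨S₁, S₂, hd, hu, hne, hf⟩
  have hu' : S₁ ∪ S₂ = univ.map p := by rw [← Finset.coe_inj, Finset.coe_union]; exact hu
  set A : Finset ι := univ.filter (fun i => p i ∈ S₁) with hA
  have hS1 : S₁ = A.map p := by
    ext x
    constructor
    · intro hx
      have : x ∈ univ.map p := by rw [← hu']; exact Finset.mem_union_left _ hx
      obtain ⟨i, -, rfl⟩ := Finset.mem_map.1 this
      exact Finset.mem_map_of_mem p (Finset.mem_filter.2 ⟨Finset.mem_univ i, hx⟩)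
    · intro hx
      obtain ⟨i, hi, rfl⟩ := Finset.mem_map.1 hx
      exact (Finset.mem_filter.1 hi).2
  have hS2 : S₂ = Aᶜ.map p := by
    ext x
    constructor
    · intro hx
      have : x ∈ univ.map p := by rw [← hu']; exact Finset.mem_union_right _ hx
      obtain ⟨i, -, rfl⟩ := Finset.mem_map.1 this
      refine Finset.mem_map_of_mem p (Finset.mem_compl.2 ?_)
      intro hc
      exact Finset.disjoint_left.1 hd (Finset.mem_filter.1 hc).2 hx
    · intro hx
      obtain ⟨i, hi, rfl⟩ := Finset.mem_map.1 hx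
      have h1 : p i ∈ S₁ ∪ S₂ := by rw [hu']; exact Finset.mem_map_of_mem p (Finset.mem_univ i)
      rcases Finset.mem_union.1 h1 with h2 | h2
      · exact absurd (Finset.mem_filter.2 ⟨Finset.mem_univ i, h2⟩) (Finset.mem_compl.1 hi)
      · exact h2
  rw [hS1, hS2] at hf hne
  -- representation of the points of the intersection
  have hrep : ∀ x ∈ convexHull ℝ ((A.map p : Finset E) : Set E) ∩
      convexHull ℝ ((Aᶜ.map p : Finset E) : Set E),
      ∃ c ∈ dep p, sumOn A c = 1 ∧ psi p A c = x := by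
    rintro x ⟨hx1, hx2⟩
    rw [Finset.mem_convexHull'] at hx1 hx2
    obtain ⟨a, -, ha1, ha2⟩ := hx1
    obtain ⟨b, -, hb1, hb2⟩ := hx2
    rw [Finset.sum_map] at ha1 ha2 hb1 hb2
    refine ⟨fun i => if i ∈ A then a (p i) else -b (p i), ⟨?_, ?_⟩, ?_, ?_⟩
    · rw [← Finset.sum_add_sum_compl A]
      rw [Finset.sum_congr rfl (fun i hi => if_pos hi), ha1,
        Finset.sum_congr rfl (fun i hi => if_neg (Finset.mem_compl.1 hi)),
        Finset.sum_neg_distrib, hb1]
      norm_num
    · rw [← Finset.sum_add_sum_compl A]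
      have e1 : ∑ i ∈ A, (if i ∈ A then a (p i) else -b (p i)) • p i = x := by
        rw [← ha2]
        exact Finset.sum_congr rfl (fun i hi => by rw [if_pos hi])
      have e2 : ∑ i ∈ Aᶜ, (if i ∈ A then a (p i) else -b (p i)) • p i = -x := by
        rw [← hb2, ← Finset.sum_neg_distrib]
        exact Finset.sum_congr rfl (fun i hi => by rw [if_neg (Finset.mem_compl.1 hi), neg_smul])
      rw [e1, e2, add_neg_cancel]
    · rw [sumOn_apply, Finset.sum_congr rfl (fun i hi => if_pos hi), ha1]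
    · rw [psi_apply, ← ha2]
      exact Finset.sum_congr rfl (fun i hi => by rw [if_pos hi])
  set C : Set E := convexHull ℝ ((A.map p : Finset E) : Set E) ∩
      convexHull ℝ ((Aᶜ.map p : Finset E) : Set E) with hC
  set W : Submodule ℝ (ι → ℝ) := dep p ⊓ LinearMap.ker (sumOn A) with hW
  have h1 : vectorSpan ℝ C ≤ W.map (psi p A) := by
    rw [vectorSpan_def, Submodule.span_le]
    rintro _ ⟨x, hx, y, hy, rfl⟩
    obtain ⟨c, hc, hc1, hc2⟩ := hrep x hx
    obtain ⟨c', hc', hc1', hc2'⟩ := hrep y hy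
    refine ⟨c - c', ⟨(dep p).sub_mem hc hc', ?_⟩, ?_⟩
    · rw [SetLike.mem_coe, LinearMap.mem_ker, map_sub, hc1, hc1', sub_self]
    · rw [map_sub, hc2, hc2']; rfl
  obtain ⟨x0, hx0⟩ := hne
  obtain ⟨c0, hc0, hc01, -⟩ := hrep x0 hx0
  have h2 : W < dep p := by
    refine lt_of_le_of_ne inf_le_left ?_
    intro he
    rw [← he] at hc0
    have := LinearMap.mem_ker.1 hc0.2
    rw [this] at hc01
    norm_num at hc01
  have h3 := Submodule.finrank_lt_finrank_of_lt h2
  have h4 : finrank ℝ (W.map (psi p A)) ≤ finrank ℝ W := Submodule.finrank_map_le _ _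
  have h5 : finrank ℝ (vectorSpan ℝ C) ≤ finrank ℝ (W.map (psi p A)) := Submodule.finrank_mono h1
  omega

/-- Vandermonde: a nonzero vector orthogonal to the first `r` powers has more than `r` nonzero
coordinates. -/
lemma vander {t : ι → ℝ} (ht : Function.Injective t) {a : ι → ℝ} {r : ℕ}
    (h : ∀ j < r, ∑ i, a i * t i ^ j = 0) (hc : (univ.filter (fun i => a i ≠ 0)).card ≤ r) :
    a = 0 := by
  classical
  by_contra hne
  obtain ⟨i0, hi0⟩ : ∃ i, a i ≠ 0 := by
    by_contra hcon
    push Not at hcon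
    exact hne (funext hcon)
  set s := univ.filter (fun i => a i ≠ 0) with hs
  have hi0s : i0 ∈ s := Finset.mem_filter.2 ⟨Finset.mem_univ _, hi0⟩
  set q : Polynomial ℝ := ∏ i ∈ s.erase i0, (Polynomial.X - Polynomial.C (t i)) with hq
  have hdeg : q.natDegree < r := by
    rw [hq, Polynomial.natDegree_finsetProd_X_sub_C_eq_card, Finset.card_erase_of_mem hi0s]
    have := Finset.card_pos.2 ⟨i0, hi0s⟩
    omega
  have hev : ∀ x, q.eval x = ∏ i ∈ s.erase i0, (x - t i) := by
    intro x
    rw [hq, Polynomial.eval_prod]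
    simp
  have h1 : ∑ i, a i * q.eval (t i) = 0 := by
    have e1 : ∀ i, a i * q.eval (t i) = ∑ j ∈ range r, q.coeff j * (a i * t i ^ j) := by
      intro i
      rw [Polynomial.eval_eq_sum_range' hdeg, Finset.mul_sum]
      exact Finset.sum_congr rfl (fun j _ => by ring)
    simp only [e1]
    rw [Finset.sum_comm]
    apply Finset.sum_eq_zero
    intro j hj
    rw [← Finset.mul_sum, h j (Finset.mem_range.1 hj), mul_zero]
  rw [Finset.sum_eq_single i0] at h1
  · have h2 : q.eval (t i0) ≠ 0 := by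
      rw [hev, Finset.prod_ne_zero_iff]
      intro i hi
      rw [sub_ne_zero]
      exact fun he => Finset.ne_of_mem_erase hi (ht he.symm)
    exact mul_ne_zero hi0 h2 h1
  · intro i _ hi
    by_cases hi' : a i = 0
    · rw [hi', zero_mul]
    · have : q.eval (t i) = 0 := by
        rw [hev]
        exact Finset.prod_eq_zero (i := i) (Finset.mem_erase.2 ⟨hi, Finset.mem_filter.2
          ⟨Finset.mem_univ _, hi'⟩⟩) (sub_self _)
      rw [this, mul_zero]
  · intro hc
    exact absurd (Finset.mem_univ _) hc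

end general

lemma dep_coord {ι : Type*} [Fintype ι] {d : ℕ} {p : ι → EuclideanSpace ℝ (Fin d)} {μ : ι → ℝ}
    (h : μ ∈ dep p) (c : Fin d) : ∑ i, μ i * p i c = 0 := by
  have h1 := congrArg (fun x : EuclideanSpace ℝ (Fin d) => (EuclideanSpace.proj c :
    EuclideanSpace ℝ (Fin d) →L[ℝ] ℝ) x) h.2
  simpa [map_sum] using h1

/-! ### The moment curve -/

/-- points of the moment curve -/
noncomputable def mom (d : ℕ) (n : ℕ) (hd : 1 ≤ d) : Fin n ↪ EuclideanSpace ℝ (Fin d) where
  toFun := fun i => WithLp.toLp 2 (fun c : Fin d => ((i : ℕ) : ℝ) ^ ((c : ℕ) + 1))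
  inj' := by
    intro i j hij
    have h1 := congrArg (fun x : EuclideanSpace ℝ (Fin d) => x ⟨0, hd⟩) hij
    simp only [zero_add, pow_one, Nat.cast_inj] at h1
    exact Fin.ext h1

lemma mom_dep {d n : ℕ} (hd : 1 ≤ d) {μ : Fin n → ℝ} (hμ : μ ∈ dep (mom d n hd)) (h0 : μ ≠ 0) :
    d + 2 ≤ (univ.filter (fun i => μ i ≠ 0)).card := by
  by_contra hc
  apply h0
  apply vander (t := fun i : Fin n => ((i : ℕ) : ℝ)) (r := d + 1) _ _ (by omega)
  · intro i j hij
    simpa [Fin.ext_iff] using hij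
  · intro j hj
    rcases Nat.eq_zero_or_pos j with rfl | hj0
    · simpa using hμ.1
    · have h1 := dep_coord hμ ⟨j - 1, by omega⟩
      rw [← h1]
      apply Finset.sum_congr rfl
      intro i _
      congr 1
      change ((i : ℕ) : ℝ) ^ j = ((i : ℕ) : ℝ) ^ (j - 1 + 1)
      congr 1
      omega

/-- `d + k + 1` points in general position -/
theorem lowerA {k d : ℕ} (hk : 1 ≤ k) (hkd : k ≤ d) :
    ∃ S : Finset (EuclideanSpace ℝ (Fin d)), KIndep k S ∧ ¬ Divisible k S ∧
      S.card = d + k + 1 := by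
  classical
  have hd : 1 ≤ d := by omega
  refine ⟨univ.map (mom d (d + k + 1) hd), ?_, ?_, ?_⟩
  · rw [kindep_iff_dep]
    intro μ hμ h0
    have := mom_dep hd hμ h0
    omega
  · apply not_divisible_of_finrank_dep_le
    obtain ⟨S, -, hS⟩ := Finset.exists_subset_card_eq
      (s := (univ : Finset (Fin (d + k + 1)))) (n := k) (by simp; omega)
    have h1 := finrank_le_kap_add_card (dep (mom d (d + k + 1) hd)) S
    have h2 : kap (dep (mom d (d + k + 1) hd)) S = 0 := by
      rw [kap, Submodule.finrank_eq_zero, eq_bot_iff]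
      intro μ hμ
      rw [Submodule.mem_bot]
      by_contra h0
      have h3 := mom_dep hd hμ.1 h0
      have h4 : univ.filter (fun i => μ i ≠ 0) ⊆ Sᶜ := by
        intro i hi
        rw [Finset.mem_compl]
        intro hc
        exact (Finset.mem_filter.1 hi).2 (hμ.2 i hc)
      have h5 := Finset.card_le_card h4
      rw [Finset.card_compl, hS, Fintype.card_fin] at h5
      omega
    omega
  · rw [Finset.card_map, Finset.card_univ, Fintype.card_fin]

/-! ### The second configuration -/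

/-- the index set -/
abbrev Idx (k d : ℕ) : Type := Fin k ⊕ (Fin (d + 1 - k) × Bool)

/-- the coordinates -/
noncomputable def cfgFun (k d : ℕ) (x : Idx k d) (c : Fin d) : ℝ :=
  match x with
  | Sum.inl j => if (c : ℕ) + 1 < k then ((j : ℕ) : ℝ) ^ ((c : ℕ) + 1) else 0
  | Sum.inr (i, b) => if (c : ℕ) + 1 < k then ((k + (i : ℕ) : ℕ) : ℝ) ^ ((c : ℕ) + 1)
      else if (c : ℕ) + 1 = k + (i : ℕ) then (if b then 1 else -1) else 0

/-- the configuration -/
noncomputable def cfg (k d : ℕ) (hk : 2 ≤ k) (hkd : k ≤ d) :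
    Idx k d ↪ EuclideanSpace ℝ (Fin d) where
  toFun := fun x => WithLp.toLp 2 (cfgFun k d x)
  inj' := by
    intro x y hxy
    have h1 : ∀ c, cfgFun k d x c = cfgFun k d y c := by
      intro c
      exact congrArg (fun x : EuclideanSpace ℝ (Fin d) => x c) hxy
    have h2 := h1 ⟨0, by omega⟩
    rcases x with j | ⟨i, b⟩ <;> rcases y with j' | ⟨i', b'⟩
    · simp only [cfgFun, zero_add, pow_one, (by omega : 1 < k), if_true, Nat.cast_inj] at h2
      rw [Fin.ext h2]
    · simp only [cfgFun, zero_add, pow_one, (by omega : 1 < k), if_true, Nat.cast_inj] at h2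
      have := j.2
      omega
    · simp only [cfgFun, zero_add, pow_one, (by omega : 1 < k), if_true, Nat.cast_inj] at h2
      have := j'.2
      omega
    · simp only [cfgFun, zero_add, pow_one, (by omega : 1 < k), if_true, Nat.cast_inj] at h2
      have h3 : i = i' := Fin.ext (by omega)
      subst h3
      have hi := i.2
      have h4 := h1 ⟨k + i - 1, by omega⟩
      have e1 : ¬ (k + (i : ℕ) < k) := by omega
      have e2 : k + (i : ℕ) - 1 + 1 = k + i := by omega
      simp only [cfgFun, e1, if_false, e2, if_true] at h4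
      cases b <;> cases b' <;> simp at h4 ⊢ <;> norm_num at h4

lemma cfg_apply {k d : ℕ} (hk : 2 ≤ k) (hkd : k ≤ d) (x : Idx k d) (c : Fin d) :
    cfg k d hk hkd x c = cfgFun k d x c := rfl

lemma sum_idx {k d : ℕ} (f : Idx k d → ℝ) :
    ∑ x, f x = ∑ j : Fin k, f (Sum.inl j) +
      ∑ i : Fin (d + 1 - k), (f (Sum.inr (i, true)) + f (Sum.inr (i, false))) := by
  rw [Fintype.sum_sum_type, Fintype.sum_prod_type]
  simp

lemma cfg_dep {k d : ℕ} (hk : 2 ≤ k) (hkd : k ≤ d) {μ : Idx k d → ℝ}
    (hμ : μ ∈ dep (cfg k d hk hkd)) (h0 : μ ≠ 0) :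
    k + 2 ≤ (univ.filter (fun i => μ i ≠ 0)).card := by
  classical
  have hpair : ∀ i : Fin (d + 1 - k), μ (Sum.inr (i, true)) = μ (Sum.inr (i, false)) := by
    intro i
    have hi := i.2
    have h1 := dep_coord hμ ⟨k + i - 1, by omega⟩
    simp only [cfg_apply] at h1
    rw [sum_idx] at h1
    have e1 : ¬ (k + (i : ℕ) < k) := by omega
    have e2 : k + (i : ℕ) - 1 + 1 = k + i := by omega
    simp only [cfgFun, e1, if_false, e2, mul_zero, Finset.sum_const_zero, zero_add] at h1
    rw [Finset.sum_eq_single i] at h1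
    · simp only [if_true, Bool.false_eq_true, if_false] at h1
      linarith
    · intro i' _ hne
      have : ¬ (k + (i : ℕ) = k + (i' : ℕ)) := by
        intro hc
        exact hne (Fin.ext (by omega))
      simp only [this, if_false, mul_zero, add_zero]
    · intro hc
      exact absurd (Finset.mem_univ _) hc
  set a : Fin k ⊕ Fin (d + 1 - k) → ℝ :=
    Sum.elim (fun j => μ (Sum.inl j)) (fun i => 2 * μ (Sum.inr (i, true))) with ha
  set t : Fin k ⊕ Fin (d + 1 - k) → ℝ :=
    Sum.elim (fun j => ((j : ℕ) : ℝ)) (fun i => ((k + (i : ℕ) : ℕ) : ℝ)) with ht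
  have htinj : Function.Injective t := by
    rintro (j | i) (j' | i') h
    · simp only [ht, Sum.elim_inl, Nat.cast_inj] at h
      rw [Fin.ext h]
    · simp only [ht, Sum.elim_inl, Sum.elim_inr, Nat.cast_inj] at h
      have := j.2
      omega
    · simp only [ht, Sum.elim_inl, Sum.elim_inr, Nat.cast_inj] at h
      have := j'.2
      omega
    · simp only [ht, Sum.elim_inr, Nat.cast_inj] at h
      have : i = i' := Fin.ext (by omega)
      rw [this]
  have hmom : ∀ j < k, ∑ i, a i * t i ^ j = 0 := by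
    intro j hj
    rw [Fintype.sum_sum_type]
    simp only [ha, ht, Sum.elim_inl, Sum.elim_inr]
    rcases Nat.eq_zero_or_pos j with rfl | hj0
    · have h1 := hμ.1
      rw [sum_idx] at h1
      simp only [← hpair] at h1
      simp only [pow_zero, mul_one]
      rw [← h1]
      congr 1
      exact Finset.sum_congr rfl (fun i _ => by ring)
    · have h1 := dep_coord hμ ⟨j - 1, by omega⟩
      simp only [cfg_apply] at h1
      rw [sum_idx] at h1
      have e2 : j - 1 + 1 = j := by omega
      simp only [cfgFun, hj, if_true, e2, ← hpair] at h1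
      rw [← h1]
      congr 1
      exact Finset.sum_congr rfl (fun i _ => by ring)
  have hane : a ≠ 0 := by
    intro hc
    apply h0
    ext x
    rcases x with j | ⟨i, b⟩
    · have := congrFun hc (Sum.inl j)
      simpa [ha] using this
    · have h1 := congrFun hc (Sum.inr i)
      have h2 : μ (Sum.inr (i, true)) = 0 := by simpa [ha] using h1
      cases b
      · rw [← hpair, h2]; rfl
      · rw [h2]; rfl
  have hsupp : k < (univ.filter (fun i => a i ≠ 0)).card := by
    by_contra hc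
    exact hane (vander htinj hmom (not_lt.1 hc))
  obtain ⟨i1, hi1⟩ : ∃ i1, a (Sum.inr i1) ≠ 0 := by
    by_contra hcon
    push Not at hcon
    have h1 : univ.filter (fun i => a i ≠ 0) ⊆ (univ : Finset (Fin k)).map
        Function.Embedding.inl := by
      rintro (j | i) hx
      · exact Finset.mem_map_of_mem _ (Finset.mem_univ j)
      · exact absurd (hcon i) (Finset.mem_filter.1 hx).2
    have h2 := Finset.card_le_card h1
    rw [Finset.card_map, Finset.card_univ, Fintype.card_fin] at h2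
    omega
  let g : Fin k ⊕ Fin (d + 1 - k) ↪ Idx k d :=
    { toFun := Sum.elim (fun j => Sum.inl j) (fun i => Sum.inr (i, true))
      inj' := by
        rintro (j | i) (j' | i') h <;> simp at h ⊢ <;> exact h }
  have h1 : (univ.filter (fun i => a i ≠ 0)).map g ⊆
      (univ.filter (fun i => μ i ≠ 0)).erase (Sum.inr (i1, false)) := by
    intro x hx
    obtain ⟨y, hy, rfl⟩ := Finset.mem_map.1 hx
    have hy2 := (Finset.mem_filter.1 hy).2
    rcases y with j | i
    · refine Finset.mem_erase.2 ⟨by simp [g], Finset.mem_filter.2 ⟨Finset.mem_univ _, ?_⟩⟩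
      simpa [ha, g] using hy2
    · refine Finset.mem_erase.2 ⟨by simp [g], Finset.mem_filter.2 ⟨Finset.mem_univ _, ?_⟩⟩
      simpa [ha, g] using hy2
  have h2 := Finset.card_le_card h1
  have h3 : Sum.inr (i1, false) ∈ univ.filter (fun i => μ i ≠ 0) := by
    refine Finset.mem_filter.2 ⟨Finset.mem_univ _, ?_⟩
    rw [← hpair]
    simpa [ha] using hi1
  rw [Finset.card_map, Finset.card_erase_of_mem h3] at h2
  have h4 := Finset.card_pos.2 ⟨_, h3⟩
  omega

/-- a coordinate inequality passes to the convex hull -/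
lemma coord_nonneg_of_mem_convexHull {d : ℕ} {S : Finset (EuclideanSpace ℝ (Fin d))} {c : Fin d}
    (h : ∀ x ∈ S, 0 ≤ x c) {x : EuclideanSpace ℝ (Fin d)} (hx : x ∈ convexHull ℝ (S : Set _)) :
    0 ≤ x c := by
  have h1 : convexHull ℝ (S : Set (EuclideanSpace ℝ (Fin d))) ⊆ {y | 0 ≤ y c} := by
    apply convexHull_min
    · intro y hy
      exact h y (Finset.mem_coe.1 hy)
    · intro y hy z hz a b ha hb _
      simp only [Set.mem_ofPred_eq, PiLp.add_apply, PiLp.smul_apply, smul_eq_mul] at hy hz ⊢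
      exact add_nonneg (mul_nonneg ha hy) (mul_nonneg hb hz)
  exact h1 hx

lemma coord_nonpos_of_mem_convexHull {d : ℕ} {S : Finset (EuclideanSpace ℝ (Fin d))} {c : Fin d}
    (h : ∀ x ∈ S, x c ≤ 0) {x : EuclideanSpace ℝ (Fin d)} (hx : x ∈ convexHull ℝ (S : Set _)) :
    x c ≤ 0 := by
  have h1 : convexHull ℝ (S : Set (EuclideanSpace ℝ (Fin d))) ⊆ {y | y c ≤ 0} := by
    apply convexHull_min
    · intro y hy
      exact h y (Finset.mem_coe.1 hy)
    · intro y hy z hz a b ha hb _
      simp only [Set.mem_ofPred_eq, PiLp.add_apply, PiLp.smul_apply, smul_eq_mul] at hy hz ⊢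
      exact add_nonpos (mul_nonpos_of_nonneg_of_nonpos ha hy)
        (mul_nonpos_of_nonneg_of_nonpos hb hz)
  exact h1 hx

lemma cfg_not_divisible {k d : ℕ} (hk : 2 ≤ k) (hkd : k ≤ d) :
    ¬ Divisible k (univ.map (cfg k d hk hkd)) := by
  classical
  rintro ⟨S₁, S₂, hd, hu, hne, hf⟩
  have hmem : ∀ x, x ∈ S₁ ∨ x ∈ S₂ → ∃ y, cfg k d hk hkd y = x := by
    intro x hx
    have h1 : x ∈ (S₁ : Set _) ∪ (S₂ : Set (EuclideanSpace ℝ (Fin d))) := by
      rcases hx with h | h
      · exact Or.inl (Finset.mem_coe.2 h)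
      · exact Or.inr (Finset.mem_coe.2 h)
    rw [hu] at h1
    obtain ⟨y, -, hy⟩ := Finset.mem_map.1 (Finset.mem_coe.1 h1)
    exact ⟨y, hy⟩
  -- the intersection lies in a coordinate subspace
  have hzero : ∀ x ∈ convexHull ℝ (S₁ : Set (EuclideanSpace ℝ (Fin d))) ∩
      convexHull ℝ (S₂ : Set (EuclideanSpace ℝ (Fin d))), ∀ c : Fin d, k ≤ (c : ℕ) + 1 →
      x c = 0 := by
    rintro x ⟨hx1, hx2⟩ c hc
    have hcd := c.2
    set i : Fin (d + 1 - k) := ⟨(c : ℕ) + 1 - k, by omega⟩ with hi
    have e0 : ¬ ((c : ℕ) + 1 < k) := by omega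
    have e1 : (c : ℕ) + 1 = k + (i : ℕ) := by rw [hi]; simp only; omega
    have hv : ∀ y : Idx k d, y ≠ Sum.inr (i, false) → 0 ≤ cfg k d hk hkd y c := by
      intro y hy
      rw [cfg_apply]
      rcases y with j | ⟨i', b⟩
      · simp only [cfgFun, e0, if_false]; exact le_rfl
      · simp only [cfgFun, e0, if_false]
        by_cases h1 : (c : ℕ) + 1 = k + (i' : ℕ)
        · rw [if_pos h1]
          have : i' = i := Fin.ext (by omega)
          cases b
          · exact absurd (by rw [this]) hy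
          · norm_num
        · rw [if_neg h1]
    have hv' : ∀ y : Idx k d, y ≠ Sum.inr (i, true) → cfg k d hk hkd y c ≤ 0 := by
      intro y hy
      rw [cfg_apply]
      rcases y with j | ⟨i', b⟩
      · simp only [cfgFun, e0, if_false]; exact le_rfl
      · simp only [cfgFun, e0, if_false]
        by_cases h1 : (c : ℕ) + 1 = k + (i' : ℕ)
        · rw [if_pos h1]
          have : i' = i := Fin.ext (by omega)
          cases b
          · norm_num
          · exact absurd (by rw [this]) hy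
        · rw [if_neg h1]
    have h1 : 0 ≤ x c := by
      by_cases hm : cfg k d hk hkd (Sum.inr (i, false)) ∈ S₁
      · refine coord_nonneg_of_mem_convexHull (S := S₂) (fun z hz => ?_) hx2
        obtain ⟨y, rfl⟩ := hmem z (Or.inr hz)
        apply hv
        rintro rfl
        exact Finset.disjoint_left.1 hd hm hz
      · refine coord_nonneg_of_mem_convexHull (S := S₁) (fun z hz => ?_) hx1
        obtain ⟨y, rfl⟩ := hmem z (Or.inl hz)
        apply hv
        rintro rfl
        exact hm hz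
    have h2 : x c ≤ 0 := by
      by_cases hm : cfg k d hk hkd (Sum.inr (i, true)) ∈ S₁
      · refine coord_nonpos_of_mem_convexHull (S := S₂) (fun z hz => ?_) hx2
        obtain ⟨y, rfl⟩ := hmem z (Or.inr hz)
        apply hv'
        rintro rfl
        exact Finset.disjoint_left.1 hd hm hz
      · refine coord_nonpos_of_mem_convexHull (S := S₁) (fun z hz => ?_) hx1
        obtain ⟨y, rfl⟩ := hmem z (Or.inl hz)
        apply hv'
        rintro rfl
        exact hm hz
    linarith
  set C : Set (EuclideanSpace ℝ (Fin d)) := convexHull ℝ (S₁ : Set (EuclideanSpace ℝ (Fin d))) ∩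
      convexHull ℝ (S₂ : Set (EuclideanSpace ℝ (Fin d))) with hC
  have hV : ∀ v ∈ vectorSpan ℝ C, ∀ c : Fin d, k ≤ (c : ℕ) + 1 → v c = 0 := by
    intro v hv c hc
    rw [vectorSpan_def] at hv
    induction hv using Submodule.span_induction with
    | mem x hx =>
      obtain ⟨y, hy, z, hz, rfl⟩ := hx
      change y c - z c = 0
      rw [hzero y hy c hc, hzero z hz c hc, sub_self]
    | zero => rfl
    | add x y _ _ h1 h2 => rw [PiLp.add_apply, h1, h2, add_zero]
    | smul a x _ h1 => rw [PiLp.smul_apply, h1, smul_zero]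
  let g : vectorSpan ℝ C →ₗ[ℝ] (Fin (k - 1) → ℝ) :=
    { toFun := fun v j => v.1 ⟨j, by have := j.2; omega⟩
      map_add' := fun _ _ => rfl
      map_smul' := fun _ _ => rfl }
  have hg : Function.Injective g := by
    intro a b hab
    apply Subtype.ext
    ext c
    by_cases hc : (c : ℕ) < k - 1
    · exact congrFun hab ⟨c, hc⟩
    · rw [hV a.1 a.2 c (by omega), hV b.1 b.2 c (by omega)]
  have h1 := LinearMap.finrank_le_finrank_of_injective hg
  rw [Module.finrank_pi, Fintype.card_fin] at h1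
  omega

/-- the second lower bound: `2d - k + 2` points -/
theorem lowerB {k d : ℕ} (hk : 2 ≤ k) (hkd : k ≤ d) :
    ∃ S : Finset (EuclideanSpace ℝ (Fin d)), KIndep k S ∧ ¬ Divisible k S ∧
      S.card = 2 * d + 2 - k := by
  classical
  refine ⟨univ.map (cfg k d hk hkd), ?_, cfg_not_divisible hk hkd, ?_⟩
  · rw [kindep_iff_dep]
    exact fun μ hμ h0 => cfg_dep hk hkd hμ h0
  · rw [Finset.card_map, Finset.card_univ, Fintype.card_sum, Fintype.card_prod, Fintype.card_fin,
      Fintype.card_fin, Fintype.card_bool]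
    omega

/-- **Main theorem.** -/
theorem N_bounds (k d : ℕ) (hk : 2 ≤ k) (hkd : k + 1 ≤ d) :
    (∀ S : Finset (EuclideanSpace ℝ (Fin d)), KIndep k S → 2 * d + 1 ≤ S.card →
      Divisible k S) ∧
    max (d + k + 2) (2 * d + 3 - k) ≤ N k d ∧ N k d ≤ 2 * d + 1 := by
  have h1 : ∀ S : Finset (EuclideanSpace ℝ (Fin d)), KIndep k S → 2 * d + 1 ≤ S.card →
      Divisible k S := fun S hS hc =>
    divisible_of_card_ge hk hkd (by simp) S hc hS
  refine ⟨h1, ?_, Nat.sInf_le h1⟩
  have h2 : ∀ S : Finset (EuclideanSpace ℝ (Fin d)), KIndep k S → ¬ Divisible k S →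
      S.card + 1 ≤ N k d := by
    intro S hS hS'
    unfold N
    refine le_csInf ⟨2 * d + 1, h1⟩ ?_
    intro n hn
    by_contra hc
    exact hS' (hn S hS (by omega))
  obtain ⟨S, hS1, hS2, hS3⟩ := lowerA (k := k) (d := d) (by omega) (by omega)
  obtain ⟨T, hT1, hT2, hT3⟩ := lowerB (k := k) (d := d) hk (by omega)
  have h3 := h2 S hS1 hS2
  have h4 := h2 T hT1 hT2
  rw [max_le_iff]
  omega

end MPa0e17f
end
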